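import Pool.Agent.H961R2.Lev.Stubs

set_option autoImplicit false

open MeasureTheory Set Filter Topology

namespace H961Lev

namespace C3aux

theorem mono_floor (a : ℝ) : Monotone fun u : ℝ => ((⌊a + u⌋ : ℤ) : ℝ) := by
  intro x y h
  have : ⌊a + x⌋ ≤ ⌊a + y⌋ := Int.floor_le_floor (by linarith)
  exact Int.cast_le.mpr this

theorem ii_floor (a : ℝ) : IntervalIntegrable (fun u : ℝ => ((⌊a + u⌋ : ℤ) : ℝ)) volume 0 1 :=
  (mono_floor a).intervalIntegrable

theorem int_fract (a : ℝ) : ∫ u in (0 : ℝ)..1, Int.fract (a + u) = 1 / 2 := by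
  rw [intervalIntegral.integral_comp_add_left (fun x => Int.fract x) a]
  have hp : Function.Periodic (fun x : ℝ => Int.fract x) 1 := Int.fract_periodic ℝ
  have h1 := hp.intervalIntegral_add_eq a 0
  rw [zero_add] at h1
  rw [add_zero, h1, intervalIntegral.integral_of_le zero_le_one, integral_Ioc_eq_integral_Ioo]
  have h2 : ∫ x in Ioo (0 : ℝ) 1, Int.fract x = ∫ x in Ioo (0 : ℝ) 1, x := by
    apply setIntegral_congr_fun measurableSet_Ioo
    intro x hx
    exact Int.fract_eq_self.mpr ⟨hx.1.le, hx.2⟩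
  rw [h2, ← integral_Ioc_eq_integral_Ioo, ← intervalIntegral.integral_of_le zero_le_one,
    integral_id]
  norm_num

theorem int_floor (a : ℝ) : ∫ u in (0 : ℝ)..1, ((⌊a + u⌋ : ℤ) : ℝ) = a := by
  have h1 : ∀ u : ℝ, ((⌊a + u⌋ : ℤ) : ℝ) = (a + u) - Int.fract (a + u) := by
    intro u
    rw [Int.self_sub_fract]
  have hc : IntervalIntegrable (fun u : ℝ => a + u) volume 0 1 :=
    (by fun_prop : Continuous fun u : ℝ => a + u).intervalIntegrable _ _
  have hfr : IntervalIntegrable (fun u : ℝ => Int.fract (a + u)) volume 0 1 := by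
    have h2 : (fun u : ℝ => Int.fract (a + u)) = fun u => (a + u) - ((⌊a + u⌋ : ℤ) : ℝ) := by
      funext u
      rw [Int.self_sub_floor]
    rw [h2]
    exact hc.sub (ii_floor a)
  simp_rw [h1]
  rw [intervalIntegral.integral_sub hc hfr, int_fract, intervalIntegral.integral_add
    intervalIntegrable_const intervalIntegral.intervalIntegrable_id, integral_id]
  simp

/-- two-sided partial sums -/
noncomputable def Ps (ψ : ℤ → ℝ) (t : ℤ) : ℝ :=
  ∑ s ∈ Finset.Ioc 0 t, ψ s - ∑ s ∈ Finset.Ioc t 0, ψ s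

theorem Ps_sub (ψ : ℤ → ℝ) (t : ℤ) : Ps ψ t - Ps ψ (t - 1) = ψ t := by
  unfold Ps
  rcases le_or_gt 1 t with h | h
  · have e1 : Finset.Ioc (0 : ℤ) t = insert t (Finset.Ioc 0 (t - 1)) := by
      ext x
      simp only [Finset.mem_Ioc, Finset.mem_insert]
      omega
    have e2 : Finset.Ioc t (0 : ℤ) = ∅ := by
      ext x
      simp only [Finset.mem_Ioc, Finset.notMem_empty, iff_false]
      omega
    have e3 : Finset.Ioc (t - 1) (0 : ℤ) = ∅ := by
      ext x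
      simp only [Finset.mem_Ioc, Finset.notMem_empty, iff_false]
      omega
    rw [e1, e2, e3, Finset.sum_insert (by simp)]
    simp
  · have e1 : Finset.Ioc (t - 1) (0 : ℤ) = insert t (Finset.Ioc t 0) := by
      ext x
      simp only [Finset.mem_Ioc, Finset.mem_insert]
      omega
    have e2 : Finset.Ioc (0 : ℤ) t = ∅ := by
      ext x
      simp only [Finset.mem_Ioc, Finset.notMem_empty, iff_false]
      omega
    have e3 : Finset.Ioc (0 : ℤ) (t - 1) = ∅ := by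
      ext x
      simp only [Finset.mem_Ioc, Finset.notMem_empty, iff_false]
      omega
    rw [e1, e2, e3, Finset.sum_insert (by simp)]
    simp

/-- telescoping -/
theorem tele (F : ℤ → ℤ) (t : ℤ) (N : ℕ) :
    ∑ k ∈ Finset.range N, (F (t + k) - F (t + k - 1)) = F (t + N - 1) - F (t - 1) := by
  induction N with
  | zero => simp
  | succ N ih =>
    rw [Finset.sum_range_succ, ih]
    push_cast
    have e1 : t + (N + 1 : ℤ) - 1 = t + N := by ring
    rw [e1]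
    ring

theorem teleR (F : ℤ → ℝ) (t : ℤ) (N : ℕ) :
    ∑ k ∈ Finset.range N, (F (t + k) - F (t + k - 1)) = F (t + N - 1) - F (t - 1) := by
  induction N with
  | zero => simp
  | succ N ih =>
    rw [Finset.sum_range_succ, ih]
    push_cast
    have e1 : t + (N + 1 : ℤ) - 1 = t + N := by ring
    rw [e1]
    ring

/-- systematic sampling -/
noncomputable def X (ψ : ℤ → ℝ) (u : ℝ) (t : ℤ) : ℤ := ⌊Ps ψ t + u⌋ - ⌊Ps ψ (t - 1) + u⌋

theorem X01 (ψ : ℤ → ℝ) (hψ : ∀ t, 0 ≤ ψ t ∧ ψ t ≤ 1) (u : ℝ) (t : ℤ) :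
    X ψ u t = 0 ∨ X ψ u t = 1 := by
  have h := Ps_sub ψ t
  obtain ⟨h0, h1⟩ := hψ t
  have a : ⌊Ps ψ (t - 1) + u⌋ ≤ ⌊Ps ψ t + u⌋ := Int.floor_le_floor (by linarith)
  have b : ⌊Ps ψ t + u⌋ ≤ ⌊Ps ψ (t - 1) + u⌋ + 1 := by
    rw [← Int.floor_add_one]
    exact Int.floor_le_floor (by linarith)
  unfold X
  omega

theorem X_window (ψ : ℤ → ℝ) (m : ℤ) (N : ℕ)
    (hw : ∀ t : ℤ, ∑ k ∈ Finset.range N, ψ (t + k) ≤ m) (u : ℝ) (t : ℤ) :
    ∑ k ∈ Finset.range N, X ψ u (t + k) ≤ m := by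
  have h1 := tele (fun s => ⌊Ps ψ s + u⌋) t N
  have h2 := teleR (Ps ψ) t N
  have h3 : ∑ k ∈ Finset.range N, (Ps ψ (t + k) - Ps ψ (t + k - 1)) =
      ∑ k ∈ Finset.range N, ψ (t + k) := Finset.sum_congr rfl fun k _ => Ps_sub ψ _
  have h4 : ∑ k ∈ Finset.range N, X ψ u (t + k) = ⌊Ps ψ (t + N - 1) + u⌋ - ⌊Ps ψ (t - 1) + u⌋ := h1
  rw [h4]
  have h5 := hw t
  rw [← h3, h2] at h5
  have h6 : ⌊Ps ψ (t + N - 1) + u⌋ ≤ ⌊Ps ψ (t - 1) + u⌋ + m := by
    rw [← Int.floor_add_intCast]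
    exact Int.floor_le_floor (by linarith)
  omega

theorem ii_X (ψ : ℤ → ℝ) (t : ℤ) :
    IntervalIntegrable (fun u : ℝ => ((X ψ u t : ℤ) : ℝ)) volume 0 1 := by
  unfold X
  push_cast
  exact (ii_floor _).sub (ii_floor _)

theorem int_X (ψ : ℤ → ℝ) (t : ℤ) : ∫ u in (0 : ℝ)..1, ((X ψ u t : ℤ) : ℝ) = ψ t := by
  unfold X
  push_cast
  rw [intervalIntegral.integral_sub (ii_floor _) (ii_floor _), int_floor, int_floor, Ps_sub]

theorem ii_W (ψ : ℤ → ℝ) (t : ℤ) (N : ℕ) : IntervalIntegrable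
    (fun u : ℝ => ∑ k ∈ Finset.range N, ((X ψ u (t + k) : ℤ) : ℝ)) volume 0 1 := by
  have h := IntervalIntegrable.sum (μ := volume) (a := 0) (b := 1) (Finset.range N)
    (f := fun (k : ℕ) (u : ℝ) => ((X ψ u (t + k) : ℤ) : ℝ)) (fun k _ => ii_X ψ (t + k))
  have e : (fun u : ℝ => ∑ k ∈ Finset.range N, ((X ψ u (t + k) : ℤ) : ℝ)) =
      ∑ k ∈ Finset.range N, fun u : ℝ => ((X ψ u (t + k) : ℤ) : ℝ) := by
    funext u
    simp
  rw [e]
  exact h

theorem int_W (ψ : ℤ → ℝ) (t : ℤ) (N : ℕ) :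
    ∫ u in (0 : ℝ)..1, ∑ k ∈ Finset.range N, ((X ψ u (t + k) : ℤ) : ℝ) =
      ∑ k ∈ Finset.range N, ψ (t + k) := by
  rw [intervalIntegral.integral_finsetSum (fun k _ => ii_X ψ _)]
  exact Finset.sum_congr rfl fun k _ => int_X ψ _

theorem ii_abs (ψ : ℤ → ℝ) (t : ℤ) : IntervalIntegrable
    (fun u : ℝ => ((X ψ u t : ℤ) : ℝ) + ((X ψ u (t - 1) : ℤ) : ℝ) - 1) volume 0 1 :=
  ((ii_X ψ t).add (ii_X ψ (t - 1))).sub intervalIntegrable_const

end C3aux

open C3aux in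
theorem T_C3 : S_C2 → S_C3 := by
  intro hC2 N m K K' ψ p hm hmN hψ hw hp hK hKK
  -- the inequality for every sample
  have hu : ∀ u : ℝ, 2 * ∑ t ∈ Finset.Icc (-K') K', (p t : ℝ) ≤ ∑ t ∈ Finset.Icc (-K') K',
      (|∑ k ∈ Finset.range N, (p (t - k) : ℝ)| *
        (1 - |((X ψ u t : ℤ) : ℝ) + ((X ψ u (t - 1) : ℤ) : ℝ) - 1|) +
      |(p t : ℝ)| * (2 * m - ∑ k ∈ Finset.range N, ((X ψ u (t + k) : ℤ) : ℝ) -
        ∑ k ∈ Finset.range N, ((X ψ u (t - 1 + k) : ℤ) : ℝ))) := by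
    intro u
    have h1 := hC2 N m K K' (X ψ u) p hm hmN (X01 ψ hψ u) (X_window ψ m N hw u) hp hK hKK
    have h2 : ((2 * ∑ t ∈ Finset.Icc (-K') K', p t : ℤ) : ℝ) ≤
      ((∑ t ∈ Finset.Icc (-K') K',
      (|∑ k ∈ Finset.range N, p (t - k)| * |X ψ u t - X ψ u (t - 1)| +
      |p t| * (2 * m - ∑ k ∈ Finset.range N, X ψ u (t + k) -
        ∑ k ∈ Finset.range N, X ψ u (t - 1 + k))) : ℤ) : ℝ) := by exact_mod_cast h1
    push_cast at h2
    refine h2.trans (le_of_eq (Finset.sum_congr rfl fun t _ => ?_))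
    congr 2
    rcases X01 ψ hψ u t with h | h <;> rcases X01 ψ hψ u (t - 1) with h' | h' <;>
      rw [h, h'] <;> norm_num
  -- integrate
  set f : ℤ → ℝ → ℝ := fun t u =>
      (|∑ k ∈ Finset.range N, (p (t - k) : ℝ)| *
        (1 - |((X ψ u t : ℤ) : ℝ) + ((X ψ u (t - 1) : ℤ) : ℝ) - 1|) +
      |(p t : ℝ)| * (2 * m - ∑ k ∈ Finset.range N, ((X ψ u (t + k) : ℤ) : ℝ) -
        ∑ k ∈ Finset.range N, ((X ψ u (t - 1 + k) : ℤ) : ℝ))) with hf
  have hfi : ∀ t, IntervalIntegrable (f t) volume 0 1 := fun t =>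
    (((intervalIntegrable_const).sub (ii_abs ψ t).abs).const_mul _).add
      (((intervalIntegrable_const.sub (ii_W ψ t N)).sub (ii_W ψ (t - 1) N)).const_mul _)
  have hint : ∀ t, ∫ u in (0 : ℝ)..1, f t u ≤
      |∑ k ∈ Finset.range N, (p (t - k) : ℝ)| * (1 - |ψ t + ψ (t - 1) - 1|) +
      |(p t : ℝ)| * (2 * m - ∑ k ∈ Finset.range N, ψ (t + k) -
        ∑ k ∈ Finset.range N, ψ (t - 1 + k)) := by
    intro t
    have i1 : IntervalIntegrable (fun u : ℝ => |((X ψ u t : ℤ) : ℝ) +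
      ((X ψ u (t - 1) : ℤ) : ℝ) - 1|) volume 0 1 := (ii_abs ψ t).abs
    have e1 : ∫ u in (0 : ℝ)..1, f t u =
        |∑ k ∈ Finset.range N, (p (t - k) : ℝ)| *
          (1 - ∫ u in (0 : ℝ)..1, |((X ψ u t : ℤ) : ℝ) + ((X ψ u (t - 1) : ℤ) : ℝ) - 1|) +
        |(p t : ℝ)| * (2 * m - ∑ k ∈ Finset.range N, ψ (t + k) -
          ∑ k ∈ Finset.range N, ψ (t - 1 + k)) := by
      rw [hf]
      rw [intervalIntegral.integral_add ((intervalIntegrable_const.sub i1).const_mul _)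
        (((intervalIntegrable_const.sub (ii_W ψ t N)).sub (ii_W ψ (t - 1) N)).const_mul _),
        intervalIntegral.integral_const_mul, intervalIntegral.integral_const_mul,
        intervalIntegral.integral_sub intervalIntegrable_const i1,
        intervalIntegral.integral_sub (intervalIntegrable_const.sub (ii_W ψ t N))
          (ii_W ψ (t - 1) N),
        intervalIntegral.integral_sub intervalIntegrable_const (ii_W ψ t N), int_W, int_W]
      simp
    have e2 : |ψ t + ψ (t - 1) - 1| ≤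
        ∫ u in (0 : ℝ)..1, |((X ψ u t : ℤ) : ℝ) + ((X ψ u (t - 1) : ℤ) : ℝ) - 1| := by
      have h3 := intervalIntegral.abs_integral_le_integral_abs (μ := volume)
        (f := fun u : ℝ => ((X ψ u t : ℤ) : ℝ) + ((X ψ u (t - 1) : ℤ) : ℝ) - 1)
        (zero_le_one (α := ℝ))
      rw [intervalIntegral.integral_sub ((ii_X ψ t).add (ii_X ψ (t - 1)))
        intervalIntegrable_const, intervalIntegral.integral_add (ii_X ψ t) (ii_X ψ (t - 1)),
        int_X, int_X] at h3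
      simpa using h3
    rw [e1]
    have h4 : (0 : ℝ) ≤ |∑ k ∈ Finset.range N, (p (t - k) : ℝ)| := abs_nonneg _
    have h5 := mul_le_mul_of_nonneg_left (sub_le_sub_left e2 1) h4
    linarith
  calc 2 * ∑ t ∈ Finset.Icc (-K') K', (p t : ℝ)
      = ∫ u in (0 : ℝ)..1, 2 * ∑ t ∈ Finset.Icc (-K') K', (p t : ℝ) := by simp
    _ ≤ ∫ u in (0 : ℝ)..1, ∑ t ∈ Finset.Icc (-K') K', f t u := by
        apply intervalIntegral.integral_mono_on zero_le_one intervalIntegrable_const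
        · have h := IntervalIntegrable.sum (μ := volume) (a := 0) (b := 1) (Finset.Icc (-K') K')
            (f := f) (fun t _ => hfi t)
          have e : (fun u : ℝ => ∑ t ∈ Finset.Icc (-K') K', f t u) =
              ∑ t ∈ Finset.Icc (-K') K', f t := by
            funext u
            simp
          rw [e]
          exact h
        · intro u _
          exact hu u
    _ = ∑ t ∈ Finset.Icc (-K') K', ∫ u in (0 : ℝ)..1, f t u :=
        intervalIntegral.integral_finsetSum fun t _ => hfi t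
    _ ≤ _ := Finset.sum_le_sum fun t _ => hint t

end H961Lev
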