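import Mathlib
import Pool.Agent.H476R2.Pal.SDefs

/-! # S6: the weighted upper bound (task S6 of h476_tasks), from `selberg`, `rankin`, `G_log`, `V_lim`,
`mertens_int` taken as hypotheses with the exact statements of the blueprint. -/

set_option autoImplicit false

namespace Pool.Agent.H329R2.PalS6

open Finset Filter Topology Pool.Agent.H476R2.Pal

/-- the primes `p ∤ 10` with `D^a ≤ p < D^b` -/
noncomputable def PI (D a b : ℝ) : Finset ℕ :=
  (range ⌈D ^ b⌉₊).filter (fun p : ℕ => p.Prime ∧ ¬ p ∣ 10 ∧ D ^ a ≤ p)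

lemma mem_PI {D a b : ℝ} {p : ℕ} :
    p ∈ PI D a b ↔ (p : ℝ) < D ^ b ∧ p.Prime ∧ ¬ p ∣ 10 ∧ D ^ a ≤ p := by
  unfold PI
  rw [mem_filter, mem_range, Nat.lt_ceil]

lemma PI_split {D a b c : ℝ} (hD : 1 ≤ D) (hab : a ≤ b) (hbc : b ≤ c) (f : ℕ → ℝ) :
    ∑ p ∈ PI D a c, f p = ∑ p ∈ PI D a b, f p + ∑ p ∈ PI D b c, f p := by
  have h1 : D ^ a ≤ D ^ b := Real.rpow_le_rpow_of_exponent_le hD hab
  have h2 : D ^ b ≤ D ^ c := Real.rpow_le_rpow_of_exponent_le hD hbc
  rw [← sum_union]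
  · congr 1
    ext p
    rw [mem_union, mem_PI, mem_PI, mem_PI]
    constructor
    · rintro ⟨h3, h4, h5, h6⟩
      rcases lt_or_ge (p : ℝ) (D ^ b) with h | h
      · exact Or.inl ⟨h, h4, h5, h6⟩
      · exact Or.inr ⟨h3, h4, h5, h⟩
    · rintro (⟨h3, h4, h5, h6⟩ | ⟨h3, h4, h5, h6⟩)
      · exact ⟨lt_of_lt_of_le h3 h2, h4, h5, h6⟩
      · exact ⟨h3, h4, h5, le_trans h1 h6⟩
  · rw [Finset.disjoint_left]
    intro p hp hp'
    rw [mem_PI] at hp hp'
    linarith [hp.1, hp'.2.2.2]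

lemma VZ_pos (z : ℕ) : 0 < VZ z := by
  unfold VZ
  apply prod_pos
  intro p hp
  rw [mem_filter] at hp
  have h1 : (2 : ℝ) ≤ p := by exact_mod_cast hp.2.1.two_le
  have h2 : 1 / (p : ℝ) ≤ 1 / 2 := one_div_le_one_div_of_le (by norm_num) h1
  linarith

/-! ### the size of `z = ⌈D^(1/12)⌉` -/

lemma tz : Tendsto (fun D : ℝ => ⌈D ^ (1 / 12 : ℝ)⌉₊) atTop atTop :=
  tendsto_nat_ceil_atTop.comp (tendsto_rpow_atTop (by norm_num))

lemma tlz : Tendsto (fun D : ℝ => Real.log (⌈D ^ (1 / 12 : ℝ)⌉₊ : ℝ)) atTop atTop :=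
  Real.tendsto_log_atTop.comp (tendsto_natCast_atTop_atTop.comp tz)

lemma log_z_bounds {D : ℝ} (hD : 1 ≤ D) :
    Real.log D / 12 ≤ Real.log (⌈D ^ (1 / 12 : ℝ)⌉₊ : ℝ) ∧
      Real.log (⌈D ^ (1 / 12 : ℝ)⌉₊ : ℝ) ≤ Real.log D / 12 + Real.log 2 := by
  have hD0 : 0 < D := by linarith
  have h1 : 1 ≤ D ^ (1 / 12 : ℝ) := Real.one_le_rpow hD (by norm_num)
  have h2 : D ^ (1 / 12 : ℝ) ≤ (⌈D ^ (1 / 12 : ℝ)⌉₊ : ℝ) := Nat.le_ceil _
  have h3 : (⌈D ^ (1 / 12 : ℝ)⌉₊ : ℝ) < D ^ (1 / 12 : ℝ) + 1 := Nat.ceil_lt_add_one (by linarith)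
  have h4 : Real.log (D ^ (1 / 12 : ℝ)) = Real.log D / 12 := by
    rw [Real.log_rpow hD0]; ring
  constructor
  · rw [← h4]
    exact Real.log_le_log (by linarith) h2
  · rw [← h4, add_comm, ← Real.log_mul (by norm_num) (by linarith)]
    exact Real.log_le_log (by linarith) (by linarith)

lemma tratio : Tendsto (fun D : ℝ => Real.log (⌈D ^ (1 / 12 : ℝ)⌉₊ : ℝ) / Real.log D) atTop
    (𝓝 (1 / 12)) := by
  have hl : Tendsto (fun D : ℝ => Real.log 2 / Real.log D) atTop (𝓝 0) :=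
    tendsto_const_nhds.div_atTop Real.tendsto_log_atTop
  have hu : Tendsto (fun D : ℝ => 1 / 12 + Real.log 2 / Real.log D) atTop (𝓝 (1 / 12)) := by
    have := (tendsto_const_nhds (x := (1 / 12 : ℝ))).add hl
    simpa using this
  apply tendsto_of_tendsto_of_tendsto_of_le_of_le' tendsto_const_nhds hu
  · filter_upwards [eventually_gt_atTop (1 : ℝ)] with D hD
    have hlog : 0 < Real.log D := Real.log_pos hD
    rw [le_div_iff₀ hlog]
    linarith [(log_z_bounds hD.le).1]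
  · filter_upwards [eventually_gt_atTop (1 : ℝ)] with D hD
    have hlog : 0 < Real.log D := Real.log_pos hD
    rw [div_le_iff₀ hlog, add_mul, div_mul_cancel₀ _ hlog.ne']
    linarith [(log_z_bounds hD.le).2]

lemma tratio' : Tendsto (fun D : ℝ => Real.log D / Real.log (⌈D ^ (1 / 12 : ℝ)⌉₊ : ℝ)) atTop
    (𝓝 12) := by
  have := tratio.inv₀ (by norm_num)
  simpa using this

/-- the Rankin bound for one range -/
lemma lemA (rankin : ∃ C : ℝ, 0 ≤ C ∧ ∀ z : ℕ, 2 ≤ z → ∀ ξ v : ℝ, 1 ≤ ξ → 0 ≤ v →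
    (VZ z)⁻¹ * (1 - Real.exp (-v * (Real.log ξ / Real.log z) +
      (Real.exp v - 1) * (1 + C / Real.log z))) ≤ GZ ξ z) (s v κ : ℝ) (hs : 0 ≤ s) (hv : 0 ≤ v)
    (hκ : 0 < κ) (h : Real.exp (-v * s + (Real.exp v - 1)) < 1 - 1 / κ) :
    ∀ᶠ D : ℝ in atTop, ∀ ξ : ℝ, D ^ (s / 12) ≤ ξ →
      1 / GZ ξ ⌈D ^ (1 / 12 : ℝ)⌉₊ ≤ κ * VZ ⌈D ^ (1 / 12 : ℝ)⌉₊ := by
  obtain ⟨C, hC0, hC⟩ := rankin
  have hCz : Tendsto (fun D : ℝ => C / Real.log (⌈D ^ (1 / 12 : ℝ)⌉₊ : ℝ)) atTop (𝓝 0) :=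
    tendsto_const_nhds.div_atTop tlz
  have lim1 : Tendsto (fun D : ℝ => Real.exp (-v * (s / 12 * (Real.log D /
      Real.log (⌈D ^ (1 / 12 : ℝ)⌉₊ : ℝ))) + (Real.exp v - 1) *
        (1 + C / Real.log (⌈D ^ (1 / 12 : ℝ)⌉₊ : ℝ)))) atTop
      (𝓝 (Real.exp (-v * s + (Real.exp v - 1)))) := by
    apply (Real.continuous_exp.tendsto _).comp
    have h1 := ((tratio'.const_mul (s / 12)).const_mul (-v)).add
      ((hCz.const_add 1).const_mul (Real.exp v - 1))
    convert h1 using 2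
    ring
  have hev := lim1.eventually_lt_const h
  filter_upwards [hev, tz.eventually_ge_atTop 2, eventually_ge_atTop (1 : ℝ)] with D hD1 hD2 hD3
  intro ξ hξ
  set z := ⌈D ^ (1 / 12 : ℝ)⌉₊ with hz
  have hD0 : 0 < D := by linarith
  have h1 : 1 ≤ D ^ (s / 12) := Real.one_le_rpow hD3 (by positivity)
  have hξ1 : 1 ≤ ξ := le_trans h1 hξ
  have hlogz : 0 < Real.log z := Real.log_pos (by exact_mod_cast hD2)
  have hlog : s / 12 * Real.log D ≤ Real.log ξ := by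
    rw [← Real.log_rpow hD0]
    exact Real.log_le_log (by linarith) hξ
  have h2 : Real.exp (-v * (Real.log ξ / Real.log z) + (Real.exp v - 1) * (1 + C / Real.log z)) ≤
      Real.exp (-v * (s / 12 * (Real.log D / Real.log z)) + (Real.exp v - 1) *
        (1 + C / Real.log z)) := by
    apply Real.exp_le_exp.mpr
    have h3 : s / 12 * (Real.log D / Real.log z) ≤ Real.log ξ / Real.log z := by
      rw [← mul_div_assoc]
      exact div_le_div_of_nonneg_right hlog hlogz.le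
    nlinarith
  have h3 := hC z hD2 ξ v hξ1 hv
  have hV := VZ_pos z
  have h4 : (VZ z)⁻¹ * (1 / κ) ≤ GZ ξ z := by
    refine le_trans ?_ h3
    apply mul_le_mul_of_nonneg_left _ (inv_nonneg.mpr hV.le)
    linarith
  have h5 : 0 < (VZ z)⁻¹ * (1 / κ) := by positivity
  have h6 : 0 < GZ ξ z := lt_of_lt_of_le h5 h4
  rw [div_le_iff₀ h6]
  calc (1 : ℝ) = κ * VZ z * ((VZ z)⁻¹ * (1 / κ)) := by field_simp
    _ ≤ κ * VZ z * GZ ξ z := mul_le_mul_of_nonneg_left h4 (by positivity)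

lemma exp_gamma : Real.exp (-Real.eulerMascheroniConstant) > 20 / 39 := by
  have h1 := Real.eulerMascheroniConstant_lt_two_thirds
  have h2 : Real.exp (-(2 / 3)) < Real.exp (-Real.eulerMascheroniConstant) :=
    Real.exp_lt_exp.mpr (by linarith)
  refine lt_trans ?_ h2
  rw [Real.exp_neg, lt_inv_comm₀ (by norm_num) (Real.exp_pos _)]
  have h3 : Real.exp (2 / 3) ^ 3 = Real.exp 1 ^ 2 := by
    rw [← Real.exp_nat_mul, ← Real.exp_nat_mul]
    norm_num
  have h4 := Real.exp_one_lt_d9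
  have h5 : Real.exp 1 ^ 2 < 2.7182818286 ^ 2 := by
    apply pow_lt_pow_left₀ h4 (Real.exp_pos _).le (by norm_num)
  by_contra hcon
  push Not at hcon
  have h6 : (20 / 39 : ℝ)⁻¹ ^ 3 ≤ Real.exp (2 / 3) ^ 3 := pow_le_pow_left₀ (by norm_num) hcon 3
  rw [h3] at h6
  norm_num at h6 h5
  linarith

lemma lemB (G_log : ∀ (z : ℕ) (ξ u : ℝ), 1 ≤ u → u < z → u ≤ ξ → 2 / 5 * Real.log u ≤ GZ ξ z)
    (V_lim : Tendsto (fun z : ℕ => VZ z * Real.log z) atTop
      (𝓝 (5 / 2 * Real.exp (-Real.eulerMascheroniConstant)))) :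
    ∀ᶠ D : ℝ in atTop, ∀ ξ : ℝ, D ^ (1 / 12 : ℝ) ≤ ξ →
      1 / GZ ξ ⌈D ^ (1 / 12 : ℝ)⌉₊ ≤ 39 / 20 * VZ ⌈D ^ (1 / 12 : ℝ)⌉₊ := by
  have hl2 : Tendsto (fun D : ℝ => Real.log 2 / Real.log (⌈D ^ (1 / 12 : ℝ)⌉₊ : ℝ)) atTop (𝓝 0) :=
    tendsto_const_nhds.div_atTop tlz
  have lim1 : Tendsto (fun D : ℝ => 39 / 20 * ((VZ ⌈D ^ (1 / 12 : ℝ)⌉₊ *
      Real.log (⌈D ^ (1 / 12 : ℝ)⌉₊ : ℝ)) * (1 / 12 * (Real.log D /
        Real.log (⌈D ^ (1 / 12 : ℝ)⌉₊ : ℝ)) - Real.log 2 / Real.log (⌈D ^ (1 / 12 : ℝ)⌉₊ : ℝ))))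
      atTop (𝓝 (39 / 20 * (5 / 2 * Real.exp (-Real.eulerMascheroniConstant)))) := by
    apply Tendsto.const_mul
    have h1 := (V_lim.comp tz).mul ((tratio'.const_mul (1 / 12)).sub hl2)
    have h0 : 5 / 2 * Real.exp (-Real.eulerMascheroniConstant) =
      5 / 2 * Real.exp (-Real.eulerMascheroniConstant) * (1 / 12 * 12 - 0) := by ring
    rw [h0]
    exact h1
  have hev := lim1.eventually_const_lt (u := 5 / 2) (by have := exp_gamma; linarith)
  have hDlarge : ∀ᶠ D : ℝ in atTop, 2 ≤ D ^ (1 / 12 : ℝ) :=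
    (tendsto_rpow_atTop (by norm_num : (0 : ℝ) < 1 / 12)).eventually_ge_atTop 2
  have hDlarge2 : ∀ᶠ D : ℝ in atTop, 12 < Real.log D :=
    Real.tendsto_log_atTop.eventually_gt_atTop 12
  filter_upwards [hev, hDlarge, hDlarge2, tz.eventually_ge_atTop 2, eventually_ge_atTop (1 : ℝ)] with
    D hD1 hD2 hD3 hD4 hD5
  intro ξ hξ
  set z := ⌈D ^ (1 / 12 : ℝ)⌉₊ with hz
  have hD0 : 0 < D := by linarith
  have hlogz : 0 < Real.log z := Real.log_pos (by exact_mod_cast hD4)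
  have hzD : D ^ (1 / 12 : ℝ) ≤ (z : ℝ) := Nat.le_ceil _
  have h1 := G_log z ξ (D ^ (1 / 12 : ℝ) / 2) (by linarith) (by linarith) (by linarith)
  have h2 : Real.log (D ^ (1 / 12 : ℝ) / 2) = Real.log D / 12 - Real.log 2 := by
    rw [Real.log_div (by positivity) (by norm_num), Real.log_rpow hD0]; ring
  rw [h2] at h1
  have hl2' : Real.log 2 < 1 := by
    have := Real.log_two_lt_d9
    linarith
  have h3 : 0 < Real.log D / 12 - Real.log 2 := by linarith
  have h4 : 0 < GZ ξ z := lt_of_lt_of_le (by positivity) h1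
  have h5 : 5 / 2 < 39 / 20 * VZ z * (Real.log D / 12 - Real.log 2) := by
    calc (5 / 2 : ℝ) < _ := hD1
      _ = 39 / 20 * VZ z * (Real.log D / 12 - Real.log 2) := by
        field_simp
  rw [div_le_iff₀ h4]
  have hV := VZ_pos z
  calc (1 : ℝ) ≤ 39 / 20 * VZ z * (2 / 5 * (Real.log D / 12 - Real.log 2)) := by linarith
    _ ≤ 39 / 20 * VZ z * GZ ξ z := mul_le_mul_of_nonneg_left h1 (by positivity)

lemma lemC (G_log : ∀ (z : ℕ) (ξ u : ℝ), 1 ≤ u → u < z → u ≤ ξ → 2 / 5 * Real.log u ≤ GZ ξ z)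
    (V_lim : Tendsto (fun z : ℕ => VZ z * Real.log z) atTop
      (𝓝 (5 / 2 * Real.exp (-Real.eulerMascheroniConstant)))) :
    ∀ᶠ D : ℝ in atTop, ∀ p : ℝ, D ^ (5 / 6 : ℝ) ≤ p → p < D ^ (995 / 1000 : ℝ) →
      (1 - Real.log p / (995 / 1000 * Real.log D)) / GZ (Real.sqrt (D / p)) ⌈D ^ (1 / 12 : ℝ)⌉₊ ≤
        13 / 40 * VZ ⌈D ^ (1 / 12 : ℝ)⌉₊ := by
  have hl2 : Tendsto (fun D : ℝ => 200 * Real.log 2 / Real.log D) atTop (𝓝 0) :=
    tendsto_const_nhds.div_atTop Real.tendsto_log_atTop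
  have lim1 : Tendsto (fun D : ℝ => 13 / 40 * (((VZ ⌈D ^ (1 / 12 : ℝ)⌉₊ *
      Real.log (⌈D ^ (1 / 12 : ℝ)⌉₊ : ℝ)) * (Real.log D / Real.log (⌈D ^ (1 / 12 : ℝ)⌉₊ : ℝ))) *
        (1 / 2 - 200 * Real.log 2 / Real.log D))) atTop
      (𝓝 (13 / 40 * ((5 / 2 * Real.exp (-Real.eulerMascheroniConstant) * 12) * (1 / 2 - 0)))) := by
    apply Tendsto.const_mul
    exact ((V_lim.comp tz).mul tratio').mul (hl2.const_sub _)
  have hev := lim1.eventually_const_lt (u := 5 / 2) (by have := exp_gamma; linarith)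
  have hDlarge2 : ∀ᶠ D : ℝ in atTop, 1000 < Real.log D :=
    Real.tendsto_log_atTop.eventually_gt_atTop 1000
  filter_upwards [hev, hDlarge2, tz.eventually_ge_atTop 2, eventually_ge_atTop (1 : ℝ)] with
    D hD1 hD3 hD4 hD5
  intro p hp1 hp2
  set z := ⌈D ^ (1 / 12 : ℝ)⌉₊ with hz
  have hD0 : 0 < D := by linarith
  have hlD : 0 < Real.log D := by linarith
  have hlogz : 0 < Real.log z := Real.log_pos (by exact_mod_cast hD4)
  have hzD : D ^ (1 / 12 : ℝ) ≤ (z : ℝ) := Nat.le_ceil _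
  have hp0 : 0 < p := lt_of_lt_of_le (by positivity) hp1
  have hlp1 : 5 / 6 * Real.log D ≤ Real.log p := by
    rw [← Real.log_rpow hD0]; exact Real.log_le_log (by positivity) hp1
  have hlp2 : Real.log p ≤ 995 / 1000 * Real.log D := by
    rw [← Real.log_rpow hD0]; exact Real.log_le_log hp0 hp2.le
  have hlξ : Real.log (Real.sqrt (D / p)) = (Real.log D - Real.log p) / 2 := by
    rw [Real.log_sqrt (by positivity), Real.log_div hD0.ne' hp0.ne']
  have hξpos : 0 < Real.sqrt (D / p) := Real.sqrt_pos.mpr (by positivity)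
  have hl2' : Real.log 2 < 1 := by
    have := Real.log_two_lt_d9
    linarith
  have hl2p : 0 < Real.log 2 := Real.log_pos (by norm_num)
  have hξ1 : 1 ≤ Real.sqrt (D / p) / 2 := by
    rw [← Real.log_nonneg_iff (by positivity), Real.log_div hξpos.ne' (by norm_num), hlξ]
    nlinarith
  have hξz : Real.sqrt (D / p) / 2 < z := by
    have h1 : Real.sqrt (D / p) ≤ D ^ (1 / 12 : ℝ) := by
      rw [← Real.log_le_log_iff hξpos (by positivity), hlξ, Real.log_rpow hD0]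
      linarith
    linarith
  have h1 := G_log z (Real.sqrt (D / p)) (Real.sqrt (D / p) / 2) hξ1 hξz (by linarith)
  have h2 : Real.log (Real.sqrt (D / p) / 2) = (Real.log D - Real.log p) / 2 - Real.log 2 := by
    rw [Real.log_div hξpos.ne' (by norm_num), hlξ]
  rw [h2] at h1
  set y := Real.log D - Real.log p with hy
  have hy1 : Real.log D / 200 ≤ y := by rw [hy]; linarith
  have hy0 : 0 < y := by linarith
  have h3 : 0 < y / 2 - Real.log 2 := by linarith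
  have h4 : 0 < GZ (Real.sqrt (D / p)) z := lt_of_lt_of_le (by positivity) h1
  have h5 : 5 / 2 < 13 / 40 * (VZ z * Real.log D * (1 / 2 - 200 * Real.log 2 / Real.log D)) := by
    calc (5 / 2 : ℝ) < _ := hD1
      _ = 13 / 40 * (VZ z * Real.log D * (1 / 2 - 200 * Real.log 2 / Real.log D)) := by
        congr 2
        field_simp
  have hV := VZ_pos z
  have hw : 1 - Real.log p / (995 / 1000 * Real.log D) ≤ y / Real.log D := by
    rw [hy, sub_div, div_self hlD.ne']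
    have : Real.log p / Real.log D ≤ Real.log p / (995 / 1000 * Real.log D) := by
      apply div_le_div_of_nonneg_left (by linarith) (by positivity) (by linarith)
    linarith
  rw [div_le_iff₀ h4]
  have h6 : y / Real.log D * (5 / 2) ≤ 13 / 40 * VZ z * (y / 2 - Real.log 2) := by
    have h7 : y * (1 / 2 - 200 * Real.log 2 / Real.log D) ≤ y / 2 - Real.log 2 := by
      have : Real.log 2 ≤ y * (200 * Real.log 2 / Real.log D) := by
        calc Real.log 2 = Real.log D / 200 * (200 * Real.log 2 / Real.log D) := by field_simp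
          _ ≤ y * (200 * Real.log 2 / Real.log D) := mul_le_mul_of_nonneg_right hy1 (by positivity)
      linarith
    calc y / Real.log D * (5 / 2) ≤ y / Real.log D *
        (13 / 40 * (VZ z * Real.log D * (1 / 2 - 200 * Real.log 2 / Real.log D))) :=
          mul_le_mul_of_nonneg_left h5.le (by positivity)
      _ = 13 / 40 * VZ z * (y * (1 / 2 - 200 * Real.log 2 / Real.log D)) := by
          field_simp
      _ ≤ _ := mul_le_mul_of_nonneg_left h7 (by positivity)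
  calc 1 - Real.log p / (995 / 1000 * Real.log D) ≤ y / Real.log D := hw
    _ ≤ 13 / 40 * VZ z * (2 / 5 * (y / 2 - Real.log 2)) := by linarith
    _ ≤ _ := mul_le_mul_of_nonneg_left h1 (by positivity)

/-! ### the remainders -/

lemma lt_of_dvd_PZ {z l p : ℕ} (hl : l ∣ PZ z) (hp : p.Prime) (hpl : p ∣ l) : p < z := by
  have h1 : p ∣ PZ z := hpl.trans hl
  unfold PZ at h1
  obtain ⟨r, hr, hpr⟩ := (hp.prime.dvd_finsetProd_iff _).mp h1
  rw [mem_filter, mem_range] at hr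
  have := (Nat.prime_dvd_prime_iff_eq hp hr.2.1).mp hpr
  omega

lemma PZ_coprime_ten (z : ℕ) : (PZ z).Coprime 10 := by
  unfold PZ
  apply Nat.Coprime.prod_left
  intro p hp
  rw [mem_filter] at hp
  exact (Nat.Prime.coprime_iff_not_dvd hp.2.1).mpr hp.2.2

lemma PZ_ne_zero (z : ℕ) : PZ z ≠ 0 := by
  unfold PZ
  apply Finset.prod_ne_zero_iff.mpr
  intro p hp
  rw [mem_filter] at hp
  exact hp.2.1.ne_zero

lemma rem_sum {ι : Type} (S : Finset ι) (v : ι → ℕ) (X D : ℝ) (z : ℕ)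
    (T : Finset ℕ) (hT : ∀ p ∈ T, p.Prime ∧ ¬ p ∣ 10 ∧ z ≤ p) (w : ℕ → ℝ)
    (hw : ∀ p ∈ T, 0 ≤ w p ∧ w p ≤ 1) :
    ∑ p ∈ T, w p * ∑ l ∈ (PZ z).divisors.filter (fun l : ℕ => (l : ℝ) ≤ D / p),
        (l.divisors.card : ℝ) ^ 2 * |rem S v X (p * l)| ≤ Rem S v X D := by
  have h1 : ∑ p ∈ T, w p * ∑ l ∈ (PZ z).divisors.filter (fun l : ℕ => (l : ℝ) ≤ D / p),
        (l.divisors.card : ℝ) ^ 2 * |rem S v X (p * l)| ≤
      ∑ p ∈ T, ∑ l ∈ (PZ z).divisors.filter (fun l : ℕ => (l : ℝ) ≤ D / p),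
        ((p * l).divisors.card : ℝ) ^ 2 * |rem S v X (p * l)| := by
    apply sum_le_sum
    intro p hp
    have hp0 : p ≠ 0 := (hT p hp).1.ne_zero
    calc w p * ∑ l ∈ (PZ z).divisors.filter (fun l : ℕ => (l : ℝ) ≤ D / p),
        (l.divisors.card : ℝ) ^ 2 * |rem S v X (p * l)| ≤
        1 * ∑ l ∈ (PZ z).divisors.filter (fun l : ℕ => (l : ℝ) ≤ D / p),
        (l.divisors.card : ℝ) ^ 2 * |rem S v X (p * l)| := by
          apply mul_le_mul_of_nonneg_right (hw p hp).2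
          exact sum_nonneg (fun l _ => by positivity)
      _ ≤ _ := by
          rw [one_mul]
          apply sum_le_sum
          intro l hl
          rw [mem_filter, Nat.mem_divisors] at hl
          have hl0 : l ≠ 0 := fun h => hl.1.2 (by rw [h] at hl; exact zero_dvd_iff.mp hl.1.1)
          apply mul_le_mul_of_nonneg_right _ (abs_nonneg _)
          apply pow_le_pow_left₀ (by positivity)
          have : l.divisors ⊆ (p * l).divisors :=
            Nat.divisors_subset_of_dvd (mul_ne_zero hp0 hl0) (dvd_mul_left l p)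
          exact_mod_cast card_le_card this
  refine le_trans h1 ?_
  rw [sum_sigma']
  set T2 := T.sigma (fun p => (PZ z).divisors.filter (fun l : ℕ => (l : ℝ) ≤ D / p)) with hT2
  have hinj : Set.InjOn (fun x : (Σ _ : ℕ, ℕ) => x.1 * x.2) (T2 : Set (Σ _ : ℕ, ℕ)) := by
    rintro ⟨p, l⟩ hx ⟨p', l'⟩ hx' he
    simp only [hT2, mem_coe, mem_sigma, mem_filter, Nat.mem_divisors] at hx hx' he
    have hp := (hT p hx.1)
    have hp' := (hT p' hx'.1)
    have h2 : p ∣ p' * l' := by rw [← he]; exact dvd_mul_right p l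
    have h3 : p = p' := by
      rcases (hp.1.dvd_mul).mp h2 with h | h
      · exact (Nat.prime_dvd_prime_iff_eq hp.1 hp'.1).mp h
      · exact absurd (lt_of_dvd_PZ hx'.2.1.1 hp.1 h) (by omega)
    subst h3
    have h4 : l = l' := Nat.eq_of_mul_eq_mul_left hp.1.pos he
    subst h4
    rfl
  have h2 : ∑ x ∈ T2, (((x.1 * x.2).divisors.card : ℝ) ^ 2 * |rem S v X (x.1 * x.2)|) =
      ∑ q ∈ T2.image (fun x : (Σ _ : ℕ, ℕ) => x.1 * x.2),
        ((q.divisors.card : ℝ) ^ 2 * |rem S v X q|) := by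
    rw [sum_image hinj]
  rw [h2]
  unfold Rem
  apply sum_le_sum_of_subset_of_nonneg
  · intro q hq
    rw [mem_image] at hq
    obtain ⟨⟨p, l⟩, hx, rfl⟩ := hq
    simp only [hT2, mem_sigma, mem_filter, Nat.mem_divisors] at hx
    have hp := (hT p hx.1)
    have hp0 : (0 : ℝ) < p := by exact_mod_cast hp.1.pos
    have hl0 : l ≠ 0 := fun h => hx.2.1.2 (by rw [h] at hx; exact zero_dvd_iff.mp hx.2.1.1)
    rw [mem_filter, mem_Icc]
    refine ⟨⟨Nat.one_le_iff_ne_zero.mpr (mul_ne_zero hp.1.ne_zero hl0), ?_⟩, ?_⟩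
    · apply Nat.le_floor
      have h3 := hx.2.2
      rw [le_div_iff₀ hp0] at h3
      push_cast
      linarith
    · apply Nat.Coprime.mul_left
      · exact (Nat.Prime.coprime_iff_not_dvd hp.1).mpr hp.2.1
      · exact Nat.Coprime.coprime_dvd_left hx.2.1.1 (PZ_coprime_ten z)
  · intro q _ _
    positivity

/-! ### numerics -/

lemma log_le_of {x y : ℝ} (n : ℕ) (hx : 0 < x) (hy : 0 ≤ y)
    (h : x ≤ ∑ i ∈ range n, y ^ i / (i.factorial : ℝ)) : Real.log x ≤ y := by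
  rw [Real.log_le_iff_le_exp hx]
  exact le_trans h (Real.sum_le_exp_of_nonneg hy n)

lemma nlog : Real.log 2 ≤ 0.6932 ∧ Real.log (3 / 2) ≤ 0.4056 ∧ Real.log (4 / 3) ≤ 0.2878 ∧
    Real.log (5 / 4) ≤ 0.2233 ∧ Real.log (6 / 5) ≤ 0.1825 ∧ Real.log (7 / 6) ≤ 0.1543 ∧
    Real.log (10 / 7) ≤ 0.3569 ∧ Real.log (597 / 500) ≤ 0.1775 := by
  refine ⟨?_, ?_, ?_, ?_, ?_, ?_, ?_, ?_⟩
  · have := Real.log_two_lt_d9
    linarith
  all_goals
    apply log_le_of 7 (by norm_num) (by norm_num)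
    norm_num [sum_range_succ, Nat.factorial]

lemma exp1_pow (n : ℕ) : Real.exp n ≤ 2.7182818286 ^ n := by
  have h1 := Real.exp_one_lt_d9
  have : Real.exp n = Real.exp 1 ^ n := by rw [← Real.exp_nat_mul]; simp
  rw [this]
  exact pow_le_pow_left₀ (Real.exp_pos _).le h1.le n

lemma expk (m : ℝ) (hm : 0 < m) (k : ℕ) (c : ℝ) :
    Real.exp (-((k : ℝ) * Real.log m) + c) = Real.exp c / m ^ k := by
  rw [Real.exp_add, Real.exp_neg, Real.exp_nat_mul, Real.exp_log hm]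
  field_simp

lemma num1 : Real.exp (-Real.log 5 * 5 + (Real.exp (Real.log 5) - 1)) < 1 - 1 / 1.018 := by
  rw [Real.exp_log (by norm_num)]
  have h := expk 5 (by norm_num) 5 (5 - 1)
  have h2 : -Real.log 5 * 5 + (5 - 1) = -(((5 : ℕ) : ℝ) * Real.log 5) + (5 - 1) := by
    push_cast; ring
  rw [h2, h]
  have h3 := exp1_pow 4
  norm_num at h3 ⊢
  linarith

lemma log4 : Real.log 4 = 2 * Real.log 2 := by
  rw [show (4 : ℝ) = 2 ^ 2 by norm_num, Real.log_pow]; norm_num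

lemma num2 : Real.exp (-Real.log 4 * (9 / 2) + (Real.exp (Real.log 4) - 1)) < 1 - 1 / 1.041 := by
  rw [Real.exp_log (by norm_num), log4]
  have h := expk 2 (by norm_num) 9 (4 - 1)
  have h2 : -(2 * Real.log 2) * (9 / 2) + (4 - 1) = -(((9 : ℕ) : ℝ) * Real.log 2) + (4 - 1) := by
    push_cast; ring
  rw [h2, h]
  have h3 := exp1_pow 3
  norm_num at h3 ⊢
  linarith

lemma num3 : Real.exp (-Real.log 4 * 4 + (Real.exp (Real.log 4) - 1)) < 1 - 1 / 1.0855 := by
  rw [Real.exp_log (by norm_num), log4]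
  have h := expk 2 (by norm_num) 8 (4 - 1)
  have h2 : -(2 * Real.log 2) * 4 + (4 - 1) = -(((8 : ℕ) : ℝ) * Real.log 2) + (4 - 1) := by
    push_cast; ring
  rw [h2, h]
  have h3 := exp1_pow 3
  norm_num at h3 ⊢
  linarith

lemma num4 : Real.exp (-Real.log 4 * (7 / 2) + (Real.exp (Real.log 4) - 1)) < 1 - 1 / 1.1865 := by
  rw [Real.exp_log (by norm_num), log4]
  have h := expk 2 (by norm_num) 7 (4 - 1)
  have h2 : -(2 * Real.log 2) * (7 / 2) + (4 - 1) = -(((7 : ℕ) : ℝ) * Real.log 2) + (4 - 1) := by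
    push_cast; ring
  rw [h2, h]
  have h3 := exp1_pow 3
  norm_num at h3 ⊢
  linarith

lemma num5 : Real.exp (-Real.log 3 * 3 + (Real.exp (Real.log 3) - 1)) < 1 - 1 / 1.3775 := by
  rw [Real.exp_log (by norm_num)]
  have h := expk 3 (by norm_num) 3 (3 - 1)
  have h2 : -Real.log 3 * 3 + (3 - 1) = -(((3 : ℕ) : ℝ) * Real.log 3) + (3 - 1) := by
    push_cast; ring
  rw [h2, h]
  have h3 := exp1_pow 2
  norm_num at h3 ⊢
  linarith

lemma num6 : Real.exp (-Real.log (9 / 4) * (5 / 2) + (Real.exp (Real.log (9 / 4)) - 1)) <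
    1 - 1 / 1.852 := by
  have hl : Real.log (9 / 4) = 2 * Real.log (3 / 2) := by
    rw [show (9 / 4 : ℝ) = (3 / 2) ^ 2 by norm_num, Real.log_pow]; norm_num
  rw [Real.exp_log (by norm_num), hl]
  have h := expk (3 / 2) (by norm_num) 5 (9 / 4 - 1)
  have h2 : -(2 * Real.log (3 / 2)) * (5 / 2) + (9 / 4 - 1) =
      -(((5 : ℕ) : ℝ) * Real.log (3 / 2)) + (9 / 4 - 1) := by
    push_cast; ring
  rw [h2, h]
  have h3 : Real.exp (9 / 4 - 1) ≤ 3.4904 := by
    have h4 : Real.exp (9 / 4 - 1) ^ 4 = Real.exp (5 : ℕ) := by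
      rw [← Real.exp_nat_mul]; norm_num
    have h5 := exp1_pow 5
    by_contra hcon
    push Not at hcon
    have h6 : (3.4904 : ℝ) ^ 4 < Real.exp (9 / 4 - 1) ^ 4 :=
      pow_lt_pow_left₀ hcon (by norm_num) (by norm_num)
    rw [h4] at h6
    norm_num at h5 h6
    linarith
  norm_num at h3 ⊢
  linarith

/-! ### the sum over one range -/

lemma range_sum {D a b κ s V : ℝ} (z : ℕ) (hD : 1 < D) (hb : b ≤ 995 / 1000) (hs : s / 12 = (1 - b) / 2)
    (hA : ∀ ξ : ℝ, D ^ (s / 12) ≤ ξ → 1 / GZ ξ z ≤ κ * V) :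
    ∑ p ∈ PI D a b, (1 - Real.log p / (995 / 1000 * Real.log D)) / p * (1 / GZ (Real.sqrt (D / p)) z) ≤
      κ * (∑ p ∈ PI D a b, (1 - Real.log p / (995 / 1000 * Real.log D)) / p) * V := by
  have hD0 : 0 < D := by linarith
  have hlD : 0 < Real.log D := Real.log_pos hD
  have : κ * (∑ p ∈ PI D a b, (1 - Real.log p / (995 / 1000 * Real.log D)) / p) * V =
      ∑ p ∈ PI D a b, (1 - Real.log p / (995 / 1000 * Real.log D)) / p * (κ * V) := by
    rw [← sum_mul]; ring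
  rw [this]
  apply sum_le_sum
  intro p hp
  rw [mem_PI] at hp
  have hp0 : (0 : ℝ) < p := by exact_mod_cast hp.2.1.pos
  have hlp : Real.log p ≤ 995 / 1000 * Real.log D := by
    have h1 : Real.log p ≤ Real.log (D ^ b) := Real.log_le_log hp0 hp.1.le
    rw [Real.log_rpow hD0] at h1
    nlinarith
  have hw : 0 ≤ (1 - Real.log p / (995 / 1000 * Real.log D)) / p := by
    apply div_nonneg _ hp0.le
    have : Real.log p / (995 / 1000 * Real.log D) ≤ 1 := by
      rw [div_le_one (by positivity)]; exact hlp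
    linarith
  apply mul_le_mul_of_nonneg_left _ hw
  apply hA
  rw [hs, Real.sqrt_eq_rpow]
  have h1 : D ^ ((1 - b) / 2) = (D ^ (1 - b)) ^ (1 / 2 : ℝ) := by
    rw [← Real.rpow_mul hD0.le]; ring_nf
  rw [h1]
  apply Real.rpow_le_rpow (by positivity) _ (by norm_num)
  rw [le_div_iff₀ hp0]
  calc D ^ (1 - b) * p ≤ D ^ (1 - b) * D ^ b := mul_le_mul_of_nonneg_left hp.1.le (by positivity)
    _ = D := by rw [← Real.rpow_add hD0]; simp

lemma range_sum' {D V : ℝ} (z : ℕ)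
    (hC : ∀ p : ℝ, D ^ (5 / 6 : ℝ) ≤ p → p < D ^ (995 / 1000 : ℝ) →
      (1 - Real.log p / (995 / 1000 * Real.log D)) / GZ (Real.sqrt (D / p)) z ≤ 13 / 40 * V) :
    ∑ p ∈ PI D (5 / 6) (995 / 1000), (1 - Real.log p / (995 / 1000 * Real.log D)) / p *
        (1 / GZ (Real.sqrt (D / p)) z) ≤
      13 / 40 * (∑ p ∈ PI D (5 / 6) (995 / 1000), 1 / (p : ℝ)) * V := by
  have : 13 / 40 * (∑ p ∈ PI D (5 / 6) (995 / 1000), 1 / (p : ℝ)) * V =
      ∑ p ∈ PI D (5 / 6) (995 / 1000), 1 / (p : ℝ) * (13 / 40 * V) := by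
    rw [← sum_mul]; ring
  rw [this]
  apply sum_le_sum
  intro p hp
  rw [mem_PI] at hp
  have hp0 : (0 : ℝ) < p := by exact_mod_cast hp.2.1.pos
  have h1 := hC p hp.2.2.2 hp.1
  calc (1 - Real.log p / (995 / 1000 * Real.log D)) / p * (1 / GZ (Real.sqrt (D / p)) z) =
      1 / (p : ℝ) * ((1 - Real.log p / (995 / 1000 * Real.log D)) / GZ (Real.sqrt (D / p)) z) := by
        ring
    _ ≤ _ := mul_le_mul_of_nonneg_left h1 (by positivity)

/-! ### assembly -/

theorem upper_of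
    (selberg : ∀ (ι : Type) (S : Finset ι) (v : ι → ℕ) (X : ℝ), 0 ≤ X → ∀ (z d : ℕ),
      d.Coprime (PZ z) → 0 < d → ∀ ξ : ℝ, 1 ≤ ξ →
      sift S v d z ≤ X / d / GZ ξ z +
        ∑ l ∈ (PZ z).divisors.filter (fun l : ℕ => (l : ℝ) ≤ ξ ^ 2),
          (l.divisors.card : ℝ) ^ 2 * |rem S v X (d * l)|)
    (rankin : ∃ C : ℝ, 0 ≤ C ∧ ∀ z : ℕ, 2 ≤ z → ∀ ξ v : ℝ, 1 ≤ ξ → 0 ≤ v →
      (VZ z)⁻¹ * (1 - Real.exp (-v * (Real.log ξ / Real.log z) +
        (Real.exp v - 1) * (1 + C / Real.log z))) ≤ GZ ξ z)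
    (G_log : ∀ (z : ℕ) (ξ u : ℝ), 1 ≤ u → u < z → u ≤ ξ → 2 / 5 * Real.log u ≤ GZ ξ z)
    (V_lim : Tendsto (fun z : ℕ => VZ z * Real.log z) atTop
      (𝓝 (5 / 2 * Real.exp (-Real.eulerMascheroniConstant))))
    (mertens_int : ∀ a b τ : ℝ, 0 < a → a < b → 0 < τ →
      Tendsto (fun D : ℝ => ∑ p ∈ (range ⌈D ^ b⌉₊).filter (fun p : ℕ => p.Prime ∧ ¬ p ∣ 10 ∧ D ^ a ≤ p),
        (1 - Real.log p / (τ * Real.log D)) / p) atTop (𝓝 (Real.log (b / a) - (b - a) / τ))) :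
    ∃ D₀ : ℝ, ∀ D : ℝ, D₀ ≤ D → ∀ (ι : Type) (S : Finset ι) (v : ι → ℕ) (X : ℝ), 0 ≤ X →
    ∑ p ∈ (range ⌈D ^ (995 / 1000 : ℝ)⌉₊).filter (fun p : ℕ => p.Prime ∧ ¬ p ∣ 10 ∧ D ^ (1 / 12 : ℝ) ≤ p),
      (1 - Real.log p / (995 / 1000 * Real.log D)) * sift S v p ⌈D ^ (1 / 12 : ℝ)⌉₊ ≤
      19 / 10 * X * VZ ⌈D ^ (1 / 12 : ℝ)⌉₊ + Rem S v X D := by
  -- the limits
  have hM : ∀ a b : ℝ, 0 < a → a < b → Tendsto (fun D : ℝ => ∑ p ∈ PI D a b,
      (1 - Real.log p / (995 / 1000 * Real.log D)) / p) atTop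
        (𝓝 (Real.log (b / a) - (b - a) / (995 / 1000))) :=
    fun a b ha hab => mertens_int a b (995 / 1000) ha hab (by norm_num)
  have hM8 : Tendsto (fun D : ℝ => ∑ p ∈ PI D (5 / 6) (995 / 1000), 1 / (p : ℝ)) atTop
      (𝓝 (Real.log ((995 / 1000) / (5 / 6)))) := by
    have h1 := mertens_int (5 / 6) (995 / 1000) 1 (by norm_num) (by norm_num) (by norm_num)
    have h2 := mertens_int (5 / 6) (995 / 1000) 2 (by norm_num) (by norm_num) (by norm_num)
    have h3 := (h2.const_mul 2).sub h1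
    have h4 : 2 * (Real.log (995 / 1000 / (5 / 6)) - (995 / 1000 - 5 / 6) / 2) -
        (Real.log (995 / 1000 / (5 / 6)) - (995 / 1000 - 5 / 6) / 1) =
        Real.log ((995 / 1000) / (5 / 6)) := by ring
    rw [h4] at h3
    refine h3.congr' ?_
    filter_upwards [eventually_gt_atTop (1 : ℝ)] with D hD
    have hlD : 0 < Real.log D := Real.log_pos hD
    rw [mul_sum, ← sum_sub_distrib]
    apply sum_congr rfl
    intro p _
    field_simp
    ring
  have htot := ((((((((hM (1 / 12) (1 / 6) (by norm_num) (by norm_num)).const_mul 1.018).add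
    ((hM (1 / 6) (1 / 4) (by norm_num) (by norm_num)).const_mul 1.041)).add
    ((hM (1 / 4) (1 / 3) (by norm_num) (by norm_num)).const_mul 1.0855)).add
    ((hM (1 / 3) (5 / 12) (by norm_num) (by norm_num)).const_mul 1.1865)).add
    ((hM (5 / 12) (1 / 2) (by norm_num) (by norm_num)).const_mul 1.3775)).add
    ((hM (1 / 2) (7 / 12) (by norm_num) (by norm_num)).const_mul 1.852)).add
    ((hM (7 / 12) (5 / 6) (by norm_num) (by norm_num)).const_mul (39 / 20))).add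
    (hM8.const_mul (13 / 40))
  have hlt := htot.eventually_lt_const (u := 19 / 10) (by
    obtain ⟨n1, n2, n3, n4, n5, n6, n7, n8⟩ := nlog
    norm_num
    norm_num at n1 n2 n3 n4 n5 n6 n7 n8
    linarith)
  have e1 := lemA rankin 5 (Real.log 5) 1.018 (by norm_num) (Real.log_nonneg (by norm_num))
    (by norm_num) num1
  have e2 := lemA rankin (9 / 2) (Real.log 4) 1.041 (by norm_num) (Real.log_nonneg (by norm_num))
    (by norm_num) num2
  have e3 := lemA rankin 4 (Real.log 4) 1.0855 (by norm_num) (Real.log_nonneg (by norm_num))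
    (by norm_num) num3
  have e4 := lemA rankin (7 / 2) (Real.log 4) 1.1865 (by norm_num) (Real.log_nonneg (by norm_num))
    (by norm_num) num4
  have e5 := lemA rankin 3 (Real.log 3) 1.3775 (by norm_num) (Real.log_nonneg (by norm_num))
    (by norm_num) num5
  have e6 := lemA rankin (5 / 2) (Real.log (9 / 4)) 1.852 (by norm_num)
    (Real.log_nonneg (by norm_num)) (by norm_num) num6
  have e7 := lemB G_log V_lim
  have e8 := lemC G_log V_lim
  have hall := hlt.and (e1.and (e2.and (e3.and (e4.and (e5.and (e6.and (e7.and (e8.and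
    (eventually_gt_atTop (1 : ℝ))))))))))
  obtain ⟨D₀, hD₀⟩ := eventually_atTop.mp hall
  refine ⟨D₀, ?_⟩
  intro D hDD ι S v X hX
  obtain ⟨h0, h1, h2, h3, h4, h5, h6, h7, h8, hD⟩ := hD₀ D hDD
  have hD0 : 0 < D := by linarith
  have hlD : 0 < Real.log D := Real.log_pos hD
  set z := ⌈D ^ (1 / 12 : ℝ)⌉₊ with hz
  have hV := VZ_pos z
  change ∑ p ∈ PI D (1 / 12) (995 / 1000), (1 - Real.log p / (995 / 1000 * Real.log D)) *
    sift S v p z ≤ _
  -- facts for the primes of the range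
  have hfacts : ∀ p ∈ PI D (1 / 12) (995 / 1000), p.Prime ∧ ¬ p ∣ 10 ∧ z ≤ p ∧
      0 ≤ 1 - Real.log p / (995 / 1000 * Real.log D) ∧
      1 - Real.log p / (995 / 1000 * Real.log D) ≤ 1 ∧ 1 ≤ Real.sqrt (D / p) := by
    intro p hp
    rw [mem_PI] at hp
    obtain ⟨hp1, hp2, hp3, hp4⟩ := hp
    have hp0 : (0 : ℝ) < p := by exact_mod_cast hp2.pos
    have hp1' : (1 : ℝ) ≤ p := by exact_mod_cast hp2.one_le
    have hlp : Real.log p ≤ 995 / 1000 * Real.log D := by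
      rw [← Real.log_rpow hD0]; exact Real.log_le_log hp0 hp1.le
    have hlp0 : 0 ≤ Real.log p := Real.log_nonneg hp1'
    refine ⟨hp2, hp3, ?_, ?_, ?_, ?_⟩
    · rw [hz]; exact Nat.ceil_le.mpr hp4
    · have : Real.log p / (995 / 1000 * Real.log D) ≤ 1 := by
        rw [div_le_one (by positivity)]; exact hlp
      linarith
    · have : 0 ≤ Real.log p / (995 / 1000 * Real.log D) := by positivity
      linarith
    · rw [Real.one_le_sqrt, le_div_iff₀ hp0, one_mul]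
      have : D ^ (995 / 1000 : ℝ) ≤ D ^ (1 : ℝ) :=
        Real.rpow_le_rpow_of_exponent_le hD.le (by norm_num)
      rw [Real.rpow_one] at this
      linarith
  -- Selberg
  have hS : ∀ p ∈ PI D (1 / 12) (995 / 1000),
      (1 - Real.log p / (995 / 1000 * Real.log D)) * sift S v p z ≤
      X * ((1 - Real.log p / (995 / 1000 * Real.log D)) / p * (1 / GZ (Real.sqrt (D / p)) z)) +
      (1 - Real.log p / (995 / 1000 * Real.log D)) *
        ∑ l ∈ (PZ z).divisors.filter (fun l : ℕ => (l : ℝ) ≤ D / p),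
          (l.divisors.card : ℝ) ^ 2 * |rem S v X (p * l)| := by
    intro p hp
    obtain ⟨g1, g2, g3, g4, g5, g6⟩ := hfacts p hp
    have hcop : p.Coprime (PZ z) := by
      rw [Nat.Prime.coprime_iff_not_dvd g1]
      intro hdvd
      have := lt_of_dvd_PZ (dvd_refl (PZ z)) g1 hdvd
      omega
    have h := selberg ι S v X hX z p hcop g1.pos (Real.sqrt (D / p)) g6
    have hsq : Real.sqrt (D / p) ^ 2 = D / p := Real.sq_sqrt (by positivity)
    rw [hsq] at h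
    calc (1 - Real.log p / (995 / 1000 * Real.log D)) * sift S v p z ≤ _ :=
          mul_le_mul_of_nonneg_left h g4
      _ = _ := by ring
  have hsum := sum_le_sum hS
  rw [sum_add_distrib, ← mul_sum] at hsum
  have hrem := rem_sum S v X D z (PI D (1 / 12) (995 / 1000))
    (fun p hp => ⟨(hfacts p hp).1, (hfacts p hp).2.1, (hfacts p hp).2.2.1⟩)
    (fun p => 1 - Real.log p / (995 / 1000 * Real.log D))
    (fun p hp => ⟨(hfacts p hp).2.2.2.1, (hfacts p hp).2.2.2.2.1⟩)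
  have hmain : ∑ p ∈ PI D (1 / 12) (995 / 1000), (1 - Real.log p / (995 / 1000 * Real.log D)) / p *
      (1 / GZ (Real.sqrt (D / p)) z) ≤ 19 / 10 * VZ z := by
    rw [PI_split (b := 1 / 6) hD.le (by norm_num) (by norm_num),
      PI_split (a := 1 / 6) (b := 1 / 4) hD.le (by norm_num) (by norm_num),
      PI_split (a := 1 / 4) (b := 1 / 3) hD.le (by norm_num) (by norm_num),
      PI_split (a := 1 / 3) (b := 5 / 12) hD.le (by norm_num) (by norm_num),
      PI_split (a := 5 / 12) (b := 1 / 2) hD.le (by norm_num) (by norm_num),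
      PI_split (a := 1 / 2) (b := 7 / 12) hD.le (by norm_num) (by norm_num),
      PI_split (a := 7 / 12) (b := 5 / 6) hD.le (by norm_num) (by norm_num)]
    have r1 := range_sum (a := 1 / 12) (b := 1 / 6) z hD (by norm_num) (by norm_num) h1
    have r2 := range_sum (a := 1 / 6) (b := 1 / 4) z hD (by norm_num) (by norm_num) h2
    have r3 := range_sum (a := 1 / 4) (b := 1 / 3) z hD (by norm_num) (by norm_num) h3
    have r4 := range_sum (a := 1 / 3) (b := 5 / 12) z hD (by norm_num) (by norm_num) h4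
    have r5 := range_sum (a := 5 / 12) (b := 1 / 2) z hD (by norm_num) (by norm_num) h5
    have r6 := range_sum (a := 1 / 2) (b := 7 / 12) z hD (by norm_num) (by norm_num) h6
    have r7 := range_sum (a := 7 / 12) (b := 5 / 6) (s := 1) (κ := 39 / 20) (V := VZ z) z hD
      (by norm_num) (by norm_num) h7
    have r8 := range_sum' z h8
    have hfin := mul_le_mul_of_nonneg_right h0.le hV.le
    linarith
  have hmain' := mul_le_mul_of_nonneg_left hmain hX
  linarith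

end Pool.Agent.H329R2.PalS6
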