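import Mathlib
import Pool.Agent.H476R2.Pal.SDefs
import Pool.Agent.H476R2.Pal.Gam
import Pool.Agent.H329R2.PalS6

/-! # Q10: the weighted upper bound at `D^(1/8)` (task Q10 of h476_tasks), from `selberg`, `G_H`, `G_log`,
`V_lim`, `mertens_int` taken as hypotheses with the exact statements of the blueprints. -/

set_option autoImplicit false

namespace Pool.Agent.H329R2.PalQ10

open Finset Filter Topology Pool.Agent.H476R2.Pal Pool.Agent.H329R2.PalS6

/-! ### the size of `z = ⌈D^(1/8)⌉` -/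

lemma tz : Tendsto (fun D : ℝ => ⌈D ^ (1 / 8 : ℝ)⌉₊) atTop atTop :=
  tendsto_nat_ceil_atTop.comp (tendsto_rpow_atTop (by norm_num))

lemma tlz : Tendsto (fun D : ℝ => Real.log (⌈D ^ (1 / 8 : ℝ)⌉₊ : ℝ)) atTop atTop :=
  Real.tendsto_log_atTop.comp (tendsto_natCast_atTop_atTop.comp tz)

lemma log_z_bounds {D : ℝ} (hD : 1 ≤ D) :
    Real.log D / 8 ≤ Real.log (⌈D ^ (1 / 8 : ℝ)⌉₊ : ℝ) ∧
      Real.log (⌈D ^ (1 / 8 : ℝ)⌉₊ : ℝ) ≤ Real.log D / 8 + Real.log 2 := by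
  have hD0 : 0 < D := by linarith
  have h1 : 1 ≤ D ^ (1 / 8 : ℝ) := Real.one_le_rpow hD (by norm_num)
  have h2 : D ^ (1 / 8 : ℝ) ≤ (⌈D ^ (1 / 8 : ℝ)⌉₊ : ℝ) := Nat.le_ceil _
  have h3 : (⌈D ^ (1 / 8 : ℝ)⌉₊ : ℝ) < D ^ (1 / 8 : ℝ) + 1 := Nat.ceil_lt_add_one (by linarith)
  have h4 : Real.log (D ^ (1 / 8 : ℝ)) = Real.log D / 8 := by
    rw [Real.log_rpow hD0]; ring
  constructor
  · rw [← h4]
    exact Real.log_le_log (by linarith) h2
  · rw [← h4, add_comm, ← Real.log_mul (by norm_num) (by linarith)]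
    exact Real.log_le_log (by linarith) (by linarith)

lemma tratio : Tendsto (fun D : ℝ => Real.log (⌈D ^ (1 / 8 : ℝ)⌉₊ : ℝ) / Real.log D) atTop
    (𝓝 (1 / 8)) := by
  have hl : Tendsto (fun D : ℝ => Real.log 2 / Real.log D) atTop (𝓝 0) :=
    tendsto_const_nhds.div_atTop Real.tendsto_log_atTop
  have hu : Tendsto (fun D : ℝ => 1 / 8 + Real.log 2 / Real.log D) atTop (𝓝 (1 / 8)) := by
    have := (tendsto_const_nhds (x := (1 / 8 : ℝ))).add hl
    simpa using this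
  apply tendsto_of_tendsto_of_tendsto_of_le_of_le' tendsto_const_nhds hu
  · filter_upwards [eventually_gt_atTop (1 : ℝ)] with D hD
    have hlog : 0 < Real.log D := Real.log_pos hD
    rw [le_div_iff₀ hlog]
    linarith [(log_z_bounds hD.le).1]
  · filter_upwards [eventually_gt_atTop (1 : ℝ)] with D hD
    have hlog : 0 < Real.log D := Real.log_pos hD
    rw [div_le_iff₀ hlog, add_mul, div_mul_cancel₀ _ hlog.ne']
    linarith [(log_z_bounds hD.le).2]

lemma tratio' : Tendsto (fun D : ℝ => Real.log D / Real.log (⌈D ^ (1 / 8 : ℝ)⌉₊ : ℝ)) atTop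
    (𝓝 8) := by
  have := tratio.inv₀ (by norm_num)
  simpa using this

lemma GZ_mono (z : ℕ) {x y : ℝ} (h : x ≤ y) : GZ x z ≤ GZ y z := by
  unfold GZ
  apply sum_le_sum_of_subset_of_nonneg
  · intro l hl
    rw [mem_filter] at hl ⊢
    exact ⟨hl.1, hl.2.trans h⟩
  · intro l _ _
    positivity

lemma exp_gamma : Real.exp (-Real.eulerMascheroniConstant) > 10000 / 18096 := by
  have h1 : Real.eulerMascheroniConstant < 593 / 1000 := Pool.Agent.H476R2.Pal.gamma_lt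
  have h2 : Real.exp (-(593 / 1000)) < Real.exp (-Real.eulerMascheroniConstant) :=
    Real.exp_lt_exp.mpr (by linarith)
  refine lt_trans ?_ h2
  rw [Real.exp_neg, lt_inv_comm₀ (by norm_num) (Real.exp_pos _)]
  refine lt_of_le_of_lt (Real.exp_bound' (by norm_num) (by norm_num) (n := 8) (by norm_num)) ?_
  norm_num [sum_range_succ, Nat.factorial]

/-- the bound from `G_H` for one range -/
lemma lemA (G_H : ∃ C : ℝ, 0 ≤ C ∧ ∀ (z : ℕ) (ξ : ℝ), 2 ≤ z → (z : ℝ) ≤ ξ →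
    2 / 5 * (Real.log ξ * (2 - Real.log (Real.log ξ / Real.log z)) - Real.log z)
      - C * (Real.log ξ / Real.log z) ≤ GZ ξ z)
    (V_lim : Tendsto (fun z : ℕ => VZ z * Real.log z) atTop
      (𝓝 (5 / 2 * Real.exp (-Real.eulerMascheroniConstant)))) (s κ : ℝ) (hs : 1 < s) (hκ : 0 < κ)
    (h : 1 < κ * (Real.exp (-Real.eulerMascheroniConstant) * (s * (2 - Real.log s) - 1))) :
    ∀ᶠ D : ℝ in atTop, ∀ ξ : ℝ, D ^ (s / 8) ≤ ξ →
      1 / GZ ξ ⌈D ^ (1 / 8 : ℝ)⌉₊ ≤ κ * VZ ⌈D ^ (1 / 8 : ℝ)⌉₊ := by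
  obtain ⟨C, hC0, hC⟩ := G_H
  -- `R = log(D^{s/8}) / log z → s`
  have tR : Tendsto (fun D : ℝ => s / 8 * (Real.log D / Real.log (⌈D ^ (1 / 8 : ℝ)⌉₊ : ℝ))) atTop
      (𝓝 s) := by
    have := tratio'.const_mul (s / 8)
    have h0 : s / 8 * 8 = s := by ring
    rwa [h0] at this
  have tlogR : Tendsto (fun D : ℝ => Real.log (s / 8 * (Real.log D /
      Real.log (⌈D ^ (1 / 8 : ℝ)⌉₊ : ℝ)))) atTop (𝓝 (Real.log s)) :=
    (Real.continuousAt_log (by linarith : s ≠ 0)).tendsto.comp tR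
  have tVl := V_lim.comp tz
  have tV0 : Tendsto (fun D : ℝ => VZ ⌈D ^ (1 / 8 : ℝ)⌉₊) atTop (𝓝 0) := by
    have h1 := tVl.div_atTop tlz
    refine h1.congr' ?_
    filter_upwards [tz.eventually_ge_atTop 2] with D hD
    have hlogz : 0 < Real.log (⌈D ^ (1 / 8 : ℝ)⌉₊ : ℝ) := Real.log_pos (by exact_mod_cast hD)
    simp only [Function.comp]
    field_simp
  have lim1 : Tendsto (fun D : ℝ => κ * ((2 / 5 * (VZ ⌈D ^ (1 / 8 : ℝ)⌉₊ *
      Real.log (⌈D ^ (1 / 8 : ℝ)⌉₊ : ℝ))) * ((s / 8 * (Real.log D / Real.log (⌈D ^ (1 / 8 : ℝ)⌉₊ : ℝ))) *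
        (2 - Real.log (s / 8 * (Real.log D / Real.log (⌈D ^ (1 / 8 : ℝ)⌉₊ : ℝ)))) - 1) -
        C * (s / 8 * (Real.log D / Real.log (⌈D ^ (1 / 8 : ℝ)⌉₊ : ℝ))) * VZ ⌈D ^ (1 / 8 : ℝ)⌉₊)) atTop
      (𝓝 (κ * ((2 / 5 * (5 / 2 * Real.exp (-Real.eulerMascheroniConstant))) *
        (s * (2 - Real.log s) - 1) - C * s * 0))) := by
    apply Tendsto.const_mul
    exact ((tVl.const_mul (2 / 5)).mul ((tR.mul (tlogR.const_sub 2)).sub_const 1)).sub
      ((tR.const_mul C).mul tV0)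
  have hev := lim1.eventually_const_lt (u := 1) (by
    have h0 : κ * ((2 / 5 * (5 / 2 * Real.exp (-Real.eulerMascheroniConstant))) *
        (s * (2 - Real.log s) - 1) - C * s * 0) =
        κ * (Real.exp (-Real.eulerMascheroniConstant) * (s * (2 - Real.log s) - 1)) := by ring
    rw [h0]; exact h)
  have hDl : ∀ᶠ D : ℝ in atTop, 2 ≤ D ^ ((s - 1) / 8) :=
    (tendsto_rpow_atTop (by linarith : 0 < (s - 1) / 8)).eventually_ge_atTop 2
  filter_upwards [hev, hDl, tz.eventually_ge_atTop 2, eventually_gt_atTop (1 : ℝ)] with D hD1 hDl2 hD2 hD3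
  intro ξ hξ
  have hD0 : 0 < D := by linarith
  have hzle : ((⌈D ^ (1 / 8 : ℝ)⌉₊ : ℕ) : ℝ) ≤ D ^ (s / 8) := by
    have h1 : 1 ≤ D ^ (1 / 8 : ℝ) := Real.one_le_rpow hD3.le (by norm_num)
    have h3 : (⌈D ^ (1 / 8 : ℝ)⌉₊ : ℝ) < D ^ (1 / 8 : ℝ) + 1 := Nat.ceil_lt_add_one (by linarith)
    have h4 : D ^ (s / 8) = D ^ (1 / 8 : ℝ) * D ^ ((s - 1) / 8) := by
      rw [← Real.rpow_add hD0]; congr 1; ring
    rw [h4]
    nlinarith
  set z := ⌈D ^ (1 / 8 : ℝ)⌉₊ with hz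
  have hlogz : 0 < Real.log z := Real.log_pos (by exact_mod_cast hD2)
  have hlog : Real.log (D ^ (s / 8)) = s / 8 * Real.log D := Real.log_rpow hD0 _
  have h3 := hC z (D ^ (s / 8)) hD2 hzle
  rw [hlog] at h3
  have hRR : s / 8 * Real.log D / Real.log z = s / 8 * (Real.log D / Real.log z) := by ring
  rw [hRR] at h3
  have hV := VZ_pos z
  have hkey : 1 < κ * VZ z * (2 / 5 * (s / 8 * Real.log D * (2 - Real.log (s / 8 * (Real.log D /
      Real.log z))) - Real.log z) - C * (s / 8 * (Real.log D / Real.log z))) := by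
    calc (1 : ℝ) < _ := hD1
      _ = _ := by
        set w := Real.log (s / 8 * (Real.log D / Real.log z)) with hw
        clear_value w
        field_simp
  have h4 : 1 < κ * VZ z * GZ ξ z := by
    refine lt_of_lt_of_le hkey ?_
    apply mul_le_mul_of_nonneg_left _ (by positivity)
    exact h3.trans (GZ_mono z hξ)
  have h6 : 0 < GZ ξ z := by
    by_contra hcon
    push Not at hcon
    have : κ * VZ z * GZ ξ z ≤ 0 := mul_nonpos_of_nonneg_of_nonpos (by positivity) hcon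
    linarith
  rw [div_le_iff₀ h6]
  exact h4.le

lemma lemB (G_log : ∀ (z : ℕ) (ξ u : ℝ), 1 ≤ u → u < z → u ≤ ξ → 2 / 5 * Real.log u ≤ GZ ξ z)
    (V_lim : Tendsto (fun z : ℕ => VZ z * Real.log z) atTop
      (𝓝 (5 / 2 * Real.exp (-Real.eulerMascheroniConstant)))) :
    ∀ᶠ D : ℝ in atTop, ∀ ξ : ℝ, D ^ (1 / 8 : ℝ) ≤ ξ →
      1 / GZ ξ ⌈D ^ (1 / 8 : ℝ)⌉₊ ≤ 182 / 100 * VZ ⌈D ^ (1 / 8 : ℝ)⌉₊ := by
  have hl2 : Tendsto (fun D : ℝ => Real.log 2 / Real.log (⌈D ^ (1 / 8 : ℝ)⌉₊ : ℝ)) atTop (𝓝 0) :=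
    tendsto_const_nhds.div_atTop tlz
  have lim1 : Tendsto (fun D : ℝ => 182 / 100 * ((VZ ⌈D ^ (1 / 8 : ℝ)⌉₊ *
      Real.log (⌈D ^ (1 / 8 : ℝ)⌉₊ : ℝ)) * (1 / 8 * (Real.log D /
        Real.log (⌈D ^ (1 / 8 : ℝ)⌉₊ : ℝ)) - Real.log 2 / Real.log (⌈D ^ (1 / 8 : ℝ)⌉₊ : ℝ))))
      atTop (𝓝 (182 / 100 * (5 / 2 * Real.exp (-Real.eulerMascheroniConstant)))) := by
    apply Tendsto.const_mul
    have h1 := (V_lim.comp tz).mul ((tratio'.const_mul (1 / 8)).sub hl2)
    have h0 : 5 / 2 * Real.exp (-Real.eulerMascheroniConstant) =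
      5 / 2 * Real.exp (-Real.eulerMascheroniConstant) * (1 / 8 * 8 - 0) := by ring
    rw [h0]
    exact h1
  have hev := lim1.eventually_const_lt (u := 5 / 2) (by have := exp_gamma; linarith)
  have hDlarge : ∀ᶠ D : ℝ in atTop, 2 ≤ D ^ (1 / 8 : ℝ) :=
    (tendsto_rpow_atTop (by norm_num : (0 : ℝ) < 1 / 8)).eventually_ge_atTop 2
  have hDlarge2 : ∀ᶠ D : ℝ in atTop, 12 < Real.log D :=
    Real.tendsto_log_atTop.eventually_gt_atTop 12
  filter_upwards [hev, hDlarge, hDlarge2, tz.eventually_ge_atTop 2, eventually_ge_atTop (1 : ℝ)] with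
    D hD1 hD2 hD3 hD4 hD5
  intro ξ hξ
  set z := ⌈D ^ (1 / 8 : ℝ)⌉₊ with hz
  have hD0 : 0 < D := by linarith
  have hlogz : 0 < Real.log z := Real.log_pos (by exact_mod_cast hD4)
  have hzD : D ^ (1 / 8 : ℝ) ≤ (z : ℝ) := Nat.le_ceil _
  have h1 := G_log z ξ (D ^ (1 / 8 : ℝ) / 2) (by linarith) (by linarith) (by linarith)
  have h2 : Real.log (D ^ (1 / 8 : ℝ) / 2) = Real.log D / 8 - Real.log 2 := by
    rw [Real.log_div (by positivity) (by norm_num), Real.log_rpow hD0]; ring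
  rw [h2] at h1
  have hl2' : Real.log 2 < 1 := by
    have := Real.log_two_lt_d9
    linarith
  have h3 : 0 < Real.log D / 8 - Real.log 2 := by linarith
  have h4 : 0 < GZ ξ z := lt_of_lt_of_le (by positivity) h1
  have h5 : 5 / 2 < 182 / 100 * VZ z * (Real.log D / 8 - Real.log 2) := by
    calc (5 / 2 : ℝ) < _ := hD1
      _ = 182 / 100 * VZ z * (Real.log D / 8 - Real.log 2) := by
        field_simp
  rw [div_le_iff₀ h4]
  have hV := VZ_pos z
  calc (1 : ℝ) ≤ 182 / 100 * VZ z * (2 / 5 * (Real.log D / 8 - Real.log 2)) := by linarith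
    _ ≤ 182 / 100 * VZ z * GZ ξ z := mul_le_mul_of_nonneg_left h1 (by positivity)

lemma lemC (G_log : ∀ (z : ℕ) (ξ u : ℝ), 1 ≤ u → u < z → u ≤ ξ → 2 / 5 * Real.log u ≤ GZ ξ z)
    (V_lim : Tendsto (fun z : ℕ => VZ z * Real.log z) atTop
      (𝓝 (5 / 2 * Real.exp (-Real.eulerMascheroniConstant)))) :
    ∀ᶠ D : ℝ in atTop, ∀ p : ℝ, D ^ (3 / 4 : ℝ) ≤ p → p < D ^ (999 / 1000 : ℝ) →
      (1 - Real.log p / (999 / 1000 * Real.log D)) / GZ (Real.sqrt (D / p)) ⌈D ^ (1 / 8 : ℝ)⌉₊ ≤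
        46 / 100 * VZ ⌈D ^ (1 / 8 : ℝ)⌉₊ := by
  have hl2 : Tendsto (fun D : ℝ => 1000 * Real.log 2 / Real.log D) atTop (𝓝 0) :=
    tendsto_const_nhds.div_atTop Real.tendsto_log_atTop
  have lim1 : Tendsto (fun D : ℝ => 46 / 100 * (((VZ ⌈D ^ (1 / 8 : ℝ)⌉₊ *
      Real.log (⌈D ^ (1 / 8 : ℝ)⌉₊ : ℝ)) * (Real.log D / Real.log (⌈D ^ (1 / 8 : ℝ)⌉₊ : ℝ))) *
        (1 / 2 - 1000 * Real.log 2 / Real.log D))) atTop
      (𝓝 (46 / 100 * ((5 / 2 * Real.exp (-Real.eulerMascheroniConstant) * 8) * (1 / 2 - 0)))) := by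
    apply Tendsto.const_mul
    exact ((V_lim.comp tz).mul tratio').mul (hl2.const_sub _)
  have hev := lim1.eventually_const_lt (u := 5 / 2) (by have := exp_gamma; linarith)
  have hDlarge2 : ∀ᶠ D : ℝ in atTop, 10000 < Real.log D :=
    Real.tendsto_log_atTop.eventually_gt_atTop 10000
  filter_upwards [hev, hDlarge2, tz.eventually_ge_atTop 2, eventually_ge_atTop (1 : ℝ)] with
    D hD1 hD3 hD4 hD5
  intro p hp1 hp2
  set z := ⌈D ^ (1 / 8 : ℝ)⌉₊ with hz
  have hD0 : 0 < D := by linarith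
  have hlD : 0 < Real.log D := by linarith
  have hlogz : 0 < Real.log z := Real.log_pos (by exact_mod_cast hD4)
  have hzD : D ^ (1 / 8 : ℝ) ≤ (z : ℝ) := Nat.le_ceil _
  have hp0 : 0 < p := lt_of_lt_of_le (by positivity) hp1
  have hlp1 : 3 / 4 * Real.log D ≤ Real.log p := by
    rw [← Real.log_rpow hD0]; exact Real.log_le_log (by positivity) hp1
  have hlp2 : Real.log p ≤ 999 / 1000 * Real.log D := by
    rw [← Real.log_rpow hD0]; exact Real.log_le_log hp0 hp2.le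
  have hlξ : Real.log (Real.sqrt (D / p)) = (Real.log D - Real.log p) / 2 := by
    rw [Real.log_sqrt (by positivity), Real.log_div hD0.ne' hp0.ne']
  have hξpos : 0 < Real.sqrt (D / p) := Real.sqrt_pos.mpr (by positivity)
  have hl2' : Real.log 2 < 1 := by
    have := Real.log_two_lt_d9
    linarith
  have hl2p : 0 < Real.log 2 := Real.log_pos (by norm_num)
  have hξ1 : 1 ≤ Real.sqrt (D / p) / 2 := by
    rw [← Real.log_nonneg_iff (by positivity), Real.log_div hξpos.ne' (by norm_num), hlξ]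
    nlinarith
  have hξz : Real.sqrt (D / p) / 2 < z := by
    have h1 : Real.sqrt (D / p) ≤ D ^ (1 / 8 : ℝ) := by
      rw [← Real.log_le_log_iff hξpos (by positivity), hlξ, Real.log_rpow hD0]
      linarith
    linarith
  have h1 := G_log z (Real.sqrt (D / p)) (Real.sqrt (D / p) / 2) hξ1 hξz (by linarith)
  have h2 : Real.log (Real.sqrt (D / p) / 2) = (Real.log D - Real.log p) / 2 - Real.log 2 := by
    rw [Real.log_div hξpos.ne' (by norm_num), hlξ]
  rw [h2] at h1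
  set y := Real.log D - Real.log p with hy
  have hy1 : Real.log D / 1000 ≤ y := by rw [hy]; linarith
  have hy0 : 0 < y := by linarith
  have h3 : 0 < y / 2 - Real.log 2 := by linarith
  have h4 : 0 < GZ (Real.sqrt (D / p)) z := lt_of_lt_of_le (by positivity) h1
  have h5 : 5 / 2 < 46 / 100 * (VZ z * Real.log D * (1 / 2 - 1000 * Real.log 2 / Real.log D)) := by
    calc (5 / 2 : ℝ) < _ := hD1
      _ = 46 / 100 * (VZ z * Real.log D * (1 / 2 - 1000 * Real.log 2 / Real.log D)) := by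
        congr 2
        field_simp
  have hV := VZ_pos z
  have hw : 1 - Real.log p / (999 / 1000 * Real.log D) ≤ y / Real.log D := by
    rw [hy, sub_div, div_self hlD.ne']
    have : Real.log p / Real.log D ≤ Real.log p / (999 / 1000 * Real.log D) := by
      apply div_le_div_of_nonneg_left (by linarith) (by positivity) (by linarith)
    linarith
  rw [div_le_iff₀ h4]
  have h6 : y / Real.log D * (5 / 2) ≤ 46 / 100 * VZ z * (y / 2 - Real.log 2) := by
    have h7 : y * (1 / 2 - 1000 * Real.log 2 / Real.log D) ≤ y / 2 - Real.log 2 := by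
      have : Real.log 2 ≤ y * (1000 * Real.log 2 / Real.log D) := by
        calc Real.log 2 = Real.log D / 1000 * (1000 * Real.log 2 / Real.log D) := by field_simp
          _ ≤ y * (1000 * Real.log 2 / Real.log D) := mul_le_mul_of_nonneg_right hy1 (by positivity)
      linarith
    calc y / Real.log D * (5 / 2) ≤ y / Real.log D *
        (46 / 100 * (VZ z * Real.log D * (1 / 2 - 1000 * Real.log 2 / Real.log D))) :=
          mul_le_mul_of_nonneg_left h5.le (by positivity)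
      _ = 46 / 100 * VZ z * (y * (1 / 2 - 1000 * Real.log 2 / Real.log D)) := by
          field_simp
      _ ≤ _ := mul_le_mul_of_nonneg_left h7 (by positivity)
  calc 1 - Real.log p / (999 / 1000 * Real.log D) ≤ y / Real.log D := hw
    _ ≤ 46 / 100 * VZ z * (2 / 5 * (y / 2 - Real.log 2)) := by linarith
    _ ≤ _ := mul_le_mul_of_nonneg_left h1 (by positivity)

/-! ### numerics -/

lemma nlog : Real.log (64 / 25) ≤ 0.9401 ∧ Real.log (25 / 16) ≤ 0.4464 ∧ Real.log (6 / 5) ≤ 0.1824 ∧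
    Real.log (5 / 4) ≤ 0.2232 ∧ Real.log (333 / 250) ≤ 0.2868 ∧ Real.log (68 / 25) ≤ 1.001 ∧
    Real.log 2 ≤ 0.6932 ∧ Real.log (8 / 5) ≤ 0.4701 := by
  refine ⟨?_, ?_, ?_, ?_, ?_, ?_, ?_, ?_⟩
  all_goals
    apply log_le_of 10 (by norm_num) (by norm_num)
    norm_num [sum_range_succ, Nat.factorial]

/-! ### the sum over one range -/

lemma range_sum {D a b κ s V : ℝ} (z : ℕ) (hD : 1 < D) (hb : b ≤ 999 / 1000) (hs : s / 8 = (1 - b) / 2)
    (hA : ∀ ξ : ℝ, D ^ (s / 8) ≤ ξ → 1 / GZ ξ z ≤ κ * V) :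
    ∑ p ∈ PI D a b, (1 - Real.log p / (999 / 1000 * Real.log D)) / p * (1 / GZ (Real.sqrt (D / p)) z) ≤
      κ * (∑ p ∈ PI D a b, (1 - Real.log p / (999 / 1000 * Real.log D)) / p) * V := by
  have hD0 : 0 < D := by linarith
  have hlD : 0 < Real.log D := Real.log_pos hD
  have : κ * (∑ p ∈ PI D a b, (1 - Real.log p / (999 / 1000 * Real.log D)) / p) * V =
      ∑ p ∈ PI D a b, (1 - Real.log p / (999 / 1000 * Real.log D)) / p * (κ * V) := by
    rw [← sum_mul]; ring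
  rw [this]
  apply sum_le_sum
  intro p hp
  rw [mem_PI] at hp
  have hp0 : (0 : ℝ) < p := by exact_mod_cast hp.2.1.pos
  have hlp : Real.log p ≤ 999 / 1000 * Real.log D := by
    have h1 : Real.log p ≤ Real.log (D ^ b) := Real.log_le_log hp0 hp.1.le
    rw [Real.log_rpow hD0] at h1
    nlinarith
  have hw : 0 ≤ (1 - Real.log p / (999 / 1000 * Real.log D)) / p := by
    apply div_nonneg _ hp0.le
    have : Real.log p / (999 / 1000 * Real.log D) ≤ 1 := by
      rw [div_le_one (by positivity)]; exact hlp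
    linarith
  apply mul_le_mul_of_nonneg_left _ hw
  apply hA
  rw [hs, Real.sqrt_eq_rpow]
  have h1 : D ^ ((1 - b) / 2) = (D ^ (1 - b)) ^ (1 / 2 : ℝ) := by
    rw [← Real.rpow_mul hD0.le]; ring_nf
  rw [h1]
  apply Real.rpow_le_rpow (by positivity) _ (by norm_num)
  rw [le_div_iff₀ hp0]
  calc D ^ (1 - b) * p ≤ D ^ (1 - b) * D ^ b := mul_le_mul_of_nonneg_left hp.1.le (by positivity)
    _ = D := by rw [← Real.rpow_add hD0]; simp

lemma range_sum' {D V : ℝ} (z : ℕ)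
    (hC : ∀ p : ℝ, D ^ (3 / 4 : ℝ) ≤ p → p < D ^ (999 / 1000 : ℝ) →
      (1 - Real.log p / (999 / 1000 * Real.log D)) / GZ (Real.sqrt (D / p)) z ≤ 46 / 100 * V) :
    ∑ p ∈ PI D (3 / 4) (999 / 1000), (1 - Real.log p / (999 / 1000 * Real.log D)) / p *
        (1 / GZ (Real.sqrt (D / p)) z) ≤
      46 / 100 * (∑ p ∈ PI D (3 / 4) (999 / 1000), 1 / (p : ℝ)) * V := by
  have : 46 / 100 * (∑ p ∈ PI D (3 / 4) (999 / 1000), 1 / (p : ℝ)) * V =
      ∑ p ∈ PI D (3 / 4) (999 / 1000), 1 / (p : ℝ) * (46 / 100 * V) := by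
    rw [← sum_mul]; ring
  rw [this]
  apply sum_le_sum
  intro p hp
  rw [mem_PI] at hp
  have hp0 : (0 : ℝ) < p := by exact_mod_cast hp.2.1.pos
  have h1 := hC p hp.2.2.2 hp.1
  calc (1 - Real.log p / (999 / 1000 * Real.log D)) / p * (1 / GZ (Real.sqrt (D / p)) z) =
      1 / (p : ℝ) * ((1 - Real.log p / (999 / 1000 * Real.log D)) / GZ (Real.sqrt (D / p)) z) := by
        ring
    _ ≤ _ := mul_le_mul_of_nonneg_left h1 (by positivity)

/-! ### assembly -/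

theorem upper2_of
    (selberg : ∀ (ι : Type) (S : Finset ι) (v : ι → ℕ) (X : ℝ), 0 ≤ X → ∀ (z d : ℕ),
      d.Coprime (PZ z) → 0 < d → ∀ ξ : ℝ, 1 ≤ ξ →
      sift S v d z ≤ X / d / GZ ξ z +
        ∑ l ∈ (PZ z).divisors.filter (fun l : ℕ => (l : ℝ) ≤ ξ ^ 2),
          (l.divisors.card : ℝ) ^ 2 * |rem S v X (d * l)|)
    (G_H : ∃ C : ℝ, 0 ≤ C ∧ ∀ (z : ℕ) (ξ : ℝ), 2 ≤ z → (z : ℝ) ≤ ξ →
      2 / 5 * (Real.log ξ * (2 - Real.log (Real.log ξ / Real.log z)) - Real.log z)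
        - C * (Real.log ξ / Real.log z) ≤ GZ ξ z)
    (G_log : ∀ (z : ℕ) (ξ u : ℝ), 1 ≤ u → u < z → u ≤ ξ → 2 / 5 * Real.log u ≤ GZ ξ z)
    (V_lim : Tendsto (fun z : ℕ => VZ z * Real.log z) atTop
      (𝓝 (5 / 2 * Real.exp (-Real.eulerMascheroniConstant))))
    (mertens_int : ∀ a b τ : ℝ, 0 < a → a < b → 0 < τ →
      Tendsto (fun D : ℝ => ∑ p ∈ (range ⌈D ^ b⌉₊).filter (fun p : ℕ => p.Prime ∧ ¬ p ∣ 10 ∧ D ^ a ≤ p),
        (1 - Real.log p / (τ * Real.log D)) / p) atTop (𝓝 (Real.log (b / a) - (b - a) / τ))) :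
    ∃ D₀ : ℝ, ∀ D : ℝ, D₀ ≤ D → ∀ (ι : Type) (S : Finset ι) (v : ι → ℕ) (X : ℝ), 0 ≤ X →
    ∑ p ∈ (range ⌈D ^ (999 / 1000 : ℝ)⌉₊).filter (fun p : ℕ => p.Prime ∧ ¬ p ∣ 10 ∧ D ^ (1 / 8 : ℝ) ≤ p),
      (1 - Real.log p / (999 / 1000 * Real.log D)) * sift S v p ⌈D ^ (1 / 8 : ℝ)⌉₊ ≤
      3 / 2 * X * VZ ⌈D ^ (1 / 8 : ℝ)⌉₊ + Rem S v X D := by
  obtain ⟨n1, n2, n3, n4, n5, n6, n7, n8⟩ := nlog
  have hg := exp_gamma
  -- the limits
  have hM : ∀ a b : ℝ, 0 < a → a < b → Tendsto (fun D : ℝ => ∑ p ∈ PI D a b,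
      (1 - Real.log p / (999 / 1000 * Real.log D)) / p) atTop
        (𝓝 (Real.log (b / a) - (b - a) / (999 / 1000))) :=
    fun a b ha hab => mertens_int a b (999 / 1000) ha hab (by norm_num)
  have hM8 : Tendsto (fun D : ℝ => ∑ p ∈ PI D (3 / 4) (999 / 1000), 1 / (p : ℝ)) atTop
      (𝓝 (Real.log ((999 / 1000) / (3 / 4)))) := by
    have h1 := mertens_int (3 / 4) (999 / 1000) 1 (by norm_num) (by norm_num) (by norm_num)
    have h2 := mertens_int (3 / 4) (999 / 1000) 2 (by norm_num) (by norm_num) (by norm_num)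
    have h3 := (h2.const_mul 2).sub h1
    have h4 : 2 * (Real.log (999 / 1000 / (3 / 4)) - (999 / 1000 - 3 / 4) / 2) -
        (Real.log (999 / 1000 / (3 / 4)) - (999 / 1000 - 3 / 4) / 1) =
        Real.log ((999 / 1000) / (3 / 4)) := by ring
    rw [h4] at h3
    refine h3.congr' ?_
    filter_upwards [eventually_gt_atTop (1 : ℝ)] with D hD
    have hlD : 0 < Real.log D := Real.log_pos hD
    rw [mul_sum, ← sum_sub_distrib]
    apply sum_congr rfl
    intro p _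
    field_simp
    ring
  have htot := (((((hM (1 / 8) (8 / 25) (by norm_num) (by norm_num)).const_mul 1.06).add
    ((hM (8 / 25) (1 / 2) (by norm_num) (by norm_num)).const_mul 1.13)).add
    ((hM (1 / 2) (3 / 5) (by norm_num) (by norm_num)).const_mul 1.26)).add
    ((hM (3 / 5) (3 / 4) (by norm_num) (by norm_num)).const_mul (182 / 100))).add
    (hM8.const_mul (46 / 100))
  have hlt := htot.eventually_lt_const (u := 3 / 2) (by
    norm_num
    norm_num at n1 n2 n3 n4 n5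
    linarith)
  have e1 := lemA G_H V_lim (68 / 25) 1.06 (by norm_num) (by norm_num) (by
    have h1 : 1.71 ≤ 68 / 25 * (2 - Real.log (68 / 25)) - 1 := by norm_num at n6 ⊢; linarith
    have h2 : (10000 / 18096 : ℝ) * 1.71 ≤ Real.exp (-Real.eulerMascheroniConstant) *
        (68 / 25 * (2 - Real.log (68 / 25)) - 1) := mul_le_mul hg.le h1 (by norm_num) (Real.exp_pos _).le
    norm_num at h2 ⊢; linarith)
  have e2 := lemA G_H V_lim 2 1.13 (by norm_num) (by norm_num) (by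
    have h1 : 1.61 ≤ 2 * (2 - Real.log 2) - 1 := by norm_num at n7 ⊢; linarith
    have h2 : (10000 / 18096 : ℝ) * 1.61 ≤ Real.exp (-Real.eulerMascheroniConstant) *
        (2 * (2 - Real.log 2) - 1) := mul_le_mul hg.le h1 (by norm_num) (Real.exp_pos _).le
    norm_num at h2 ⊢; linarith)
  have e3 := lemA G_H V_lim (8 / 5) 1.26 (by norm_num) (by norm_num) (by
    have h1 : 1.447 ≤ 8 / 5 * (2 - Real.log (8 / 5)) - 1 := by norm_num at n8 ⊢; linarith
    have h2 : (10000 / 18096 : ℝ) * 1.447 ≤ Real.exp (-Real.eulerMascheroniConstant) *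
        (8 / 5 * (2 - Real.log (8 / 5)) - 1) := mul_le_mul hg.le h1 (by norm_num) (Real.exp_pos _).le
    norm_num at h2 ⊢; linarith)
  have e4 := lemB G_log V_lim
  have e5 := lemC G_log V_lim
  have hall := hlt.and (e1.and (e2.and (e3.and (e4.and (e5.and (eventually_gt_atTop (1 : ℝ)))))))
  obtain ⟨D₀, hD₀⟩ := eventually_atTop.mp hall
  refine ⟨D₀, ?_⟩
  intro D hDD ι S v X hX
  obtain ⟨h0, h1, h2, h3, h4, h5, hD⟩ := hD₀ D hDD
  have hD0 : 0 < D := by linarith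
  have hlD : 0 < Real.log D := Real.log_pos hD
  set z := ⌈D ^ (1 / 8 : ℝ)⌉₊ with hz
  have hV := VZ_pos z
  change ∑ p ∈ PI D (1 / 8) (999 / 1000), (1 - Real.log p / (999 / 1000 * Real.log D)) *
    sift S v p z ≤ _
  -- facts for the primes of the range
  have hfacts : ∀ p ∈ PI D (1 / 8) (999 / 1000), p.Prime ∧ ¬ p ∣ 10 ∧ z ≤ p ∧
      0 ≤ 1 - Real.log p / (999 / 1000 * Real.log D) ∧
      1 - Real.log p / (999 / 1000 * Real.log D) ≤ 1 ∧ 1 ≤ Real.sqrt (D / p) := by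
    intro p hp
    rw [mem_PI] at hp
    obtain ⟨hp1, hp2, hp3, hp4⟩ := hp
    have hp0 : (0 : ℝ) < p := by exact_mod_cast hp2.pos
    have hp1' : (1 : ℝ) ≤ p := by exact_mod_cast hp2.one_le
    have hlp : Real.log p ≤ 999 / 1000 * Real.log D := by
      rw [← Real.log_rpow hD0]; exact Real.log_le_log hp0 hp1.le
    have hlp0 : 0 ≤ Real.log p := Real.log_nonneg hp1'
    refine ⟨hp2, hp3, ?_, ?_, ?_, ?_⟩
    · rw [hz]; exact Nat.ceil_le.mpr hp4
    · have : Real.log p / (999 / 1000 * Real.log D) ≤ 1 := by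
        rw [div_le_one (by positivity)]; exact hlp
      linarith
    · have : 0 ≤ Real.log p / (999 / 1000 * Real.log D) := by positivity
      linarith
    · rw [Real.one_le_sqrt, le_div_iff₀ hp0, one_mul]
      have : D ^ (999 / 1000 : ℝ) ≤ D ^ (1 : ℝ) :=
        Real.rpow_le_rpow_of_exponent_le hD.le (by norm_num)
      rw [Real.rpow_one] at this
      linarith
  -- Selberg
  have hS : ∀ p ∈ PI D (1 / 8) (999 / 1000),
      (1 - Real.log p / (999 / 1000 * Real.log D)) * sift S v p z ≤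
      X * ((1 - Real.log p / (999 / 1000 * Real.log D)) / p * (1 / GZ (Real.sqrt (D / p)) z)) +
      (1 - Real.log p / (999 / 1000 * Real.log D)) *
        ∑ l ∈ (PZ z).divisors.filter (fun l : ℕ => (l : ℝ) ≤ D / p),
          (l.divisors.card : ℝ) ^ 2 * |rem S v X (p * l)| := by
    intro p hp
    obtain ⟨g1, g2, g3, g4, g5, g6⟩ := hfacts p hp
    have hcop : p.Coprime (PZ z) := by
      rw [Nat.Prime.coprime_iff_not_dvd g1]
      intro hdvd
      have := lt_of_dvd_PZ (dvd_refl (PZ z)) g1 hdvd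
      omega
    have h := selberg ι S v X hX z p hcop g1.pos (Real.sqrt (D / p)) g6
    have hsq : Real.sqrt (D / p) ^ 2 = D / p := Real.sq_sqrt (by positivity)
    rw [hsq] at h
    calc (1 - Real.log p / (999 / 1000 * Real.log D)) * sift S v p z ≤ _ :=
          mul_le_mul_of_nonneg_left h g4
      _ = _ := by ring
  have hsum := sum_le_sum hS
  rw [sum_add_distrib, ← mul_sum] at hsum
  have hrem := rem_sum S v X D z (PI D (1 / 8) (999 / 1000))
    (fun p hp => ⟨(hfacts p hp).1, (hfacts p hp).2.1, (hfacts p hp).2.2.1⟩)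
    (fun p => 1 - Real.log p / (999 / 1000 * Real.log D))
    (fun p hp => ⟨(hfacts p hp).2.2.2.1, (hfacts p hp).2.2.2.2.1⟩)
  have hmain : ∑ p ∈ PI D (1 / 8) (999 / 1000), (1 - Real.log p / (999 / 1000 * Real.log D)) / p *
      (1 / GZ (Real.sqrt (D / p)) z) ≤ 3 / 2 * VZ z := by
    rw [PI_split (b := 8 / 25) hD.le (by norm_num) (by norm_num),
      PI_split (a := 8 / 25) (b := 1 / 2) hD.le (by norm_num) (by norm_num),
      PI_split (a := 1 / 2) (b := 3 / 5) hD.le (by norm_num) (by norm_num),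
      PI_split (a := 3 / 5) (b := 3 / 4) hD.le (by norm_num) (by norm_num)]
    have r1 := range_sum (a := 1 / 8) (b := 8 / 25) z hD (by norm_num) (by norm_num) h1
    have r2 := range_sum (a := 8 / 25) (b := 1 / 2) z hD (by norm_num) (by norm_num) h2
    have r3 := range_sum (a := 1 / 2) (b := 3 / 5) z hD (by norm_num) (by norm_num) h3
    have r4 := range_sum (a := 3 / 5) (b := 3 / 4) (s := 1) (κ := 182 / 100) (V := VZ z) z hD
      (by norm_num) (by norm_num) h4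
    have r5 := range_sum' z h5
    have hfin := mul_le_mul_of_nonneg_right h0.le hV.le
    linarith
  have hmain' := mul_le_mul_of_nonneg_left hmain hX
  linarith

end Pool.Agent.H329R2.PalQ10
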