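import Mathlib
import Pool.Agent.H476R2.Pal.Defs
import Pool.Agent.H476R2.Pal.SDefs
import Pool.Agent.H605R2.PalS1
import Pool.Agent.H965R2.PalS3
import Pool.Agent.H329R2.PalS6

/-! # T13: upper bound for palindromic primes, from `BV` and `palin_eq` (taken as hypotheses) -/

set_option autoImplicit false

namespace Pool.Agent.H329R2.PalT13

open Finset Filter Topology Pool.Agent.Helper112 Pool.Agent.H476R2.Pal

/-- palindromes with exactly `2 L + 1` decimal digits -/
def palin (L : ℕ) : Finset ℕ :=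
  (range (10 ^ (2 * L + 1))).filter (fun n => 10 ^ (2 * L) ≤ n ∧
    (Nat.digits 10 n).reverse = Nat.digits 10 n)

/-- palindrome with leading digit `l` -/
def pvl (l L : ℕ) (m : Fin L → Fin 10) : ℕ :=
  l * (10 ^ (2 * L) + 1) + ∑ c : Fin L, (m c : ℕ) * fr L c

lemma ten_dvd_fr {L c : ℕ} (hc : c < L) : 10 ∣ fr L c := by
  unfold fr
  split_ifs with h
  · exact dvd_pow_self 10 (by omega)
  · exact dvd_add (dvd_pow_self 10 (by omega)) (dvd_pow_self 10 (by omega))

lemma pvl_mod (l L : ℕ) (hL : 1 ≤ L) (m : Fin L → Fin 10) : pvl l L m % 10 = l % 10 := by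
  unfold pvl
  have h1 : 10 ∣ ∑ c : Fin L, (m c : ℕ) * fr L c :=
    dvd_sum (fun c _ => dvd_mul_of_dvd_right (ten_dvd_fr c.2) _)
  have h2 : 10 ∣ l * 10 ^ (2 * L) := dvd_mul_of_dvd_right (dvd_pow_self 10 (by omega)) _
  rw [mul_add, mul_one]
  omega

lemma pvl_ge (l L : ℕ) (hl : 1 ≤ l) (m : Fin L → Fin 10) : 10 ^ (2 * L) < pvl l L m := by
  unfold pvl
  have : 10 ^ (2 * L) + 1 ≤ l * (10 ^ (2 * L) + 1) := Nat.le_mul_of_pos_left _ hl
  omega

lemma pvl_eq (l L : ℕ) (hl : 1 ≤ l) (m : Fin L → Fin 10) :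
    pvl l L m = pv L m + (l - 1) * (10 ^ (2 * L) + 1) := by
  unfold pvl pv
  obtain ⟨k, rfl⟩ := Nat.exists_eq_add_of_le hl
  rw [Nat.add_sub_cancel_left]
  ring

/-- residue of `pv` which makes `pvl` divisible by `q` -/
def hres (l L q : ℕ) : ℕ := (q - 1) * ((l - 1) * (10 ^ (2 * L) + 1))

lemma dvd_pvl_iff (l L q : ℕ) (hl : 1 ≤ l) (hq : 1 ≤ q) (m : Fin L → Fin 10) :
    q ∣ pvl l L m ↔ pv L m ≡ hres l L q [MOD q] := by
  rw [pvl_eq l L hl m]
  unfold hres
  set t := (l - 1) * (10 ^ (2 * L) + 1) with ht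
  have h1 : (q - 1) * t + t = q * t := by
    obtain ⟨k, rfl⟩ := Nat.exists_eq_add_of_le hq
    rw [Nat.add_sub_cancel_left]; ring
  constructor
  · intro h
    have h2 : pv L m + t ≡ (q - 1) * t + t [MOD q] := by
      rw [h1]
      exact ((Nat.modEq_zero_iff_dvd.mpr h)).trans
        ((Nat.modEq_zero_iff_dvd.mpr (dvd_mul_right q t))).symm
    exact Nat.ModEq.add_right_cancel' t h2
  · intro h
    have h2 : pv L m + t ≡ (q - 1) * t + t [MOD q] := Nat.ModEq.add_right t h
    rw [h1] at h2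
    exact Nat.modEq_zero_iff_dvd.mp (h2.trans (Nat.modEq_zero_iff_dvd.mpr (dvd_mul_right q t)))

lemma rem_eq (l L q : ℕ) (hl : 1 ≤ l) (hq : 1 ≤ q) :
    rem (univ : Finset (Fin L → Fin 10)) (pvl l L) (10 ^ L) q =
      cnt L q (hres l L q) - 10 ^ L / q := by
  unfold rem cnt
  congr 2
  congr 1
  ext m
  simp only [mem_filter, mem_univ, true_and]
  exact dvd_pvl_iff l L q hl hq m

/-- primes in one family -/
lemma family (l L : ℕ) (hl : 1 ≤ l) (D : ℝ) (hD : 4 < D) (hDL : Real.sqrt D + 1 ≤ 10 ^ (2 * L)) :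
    ((((univ : Finset (Fin L → Fin 10)).filter (fun m => (pvl l L m).Prime)).card : ℕ) : ℝ) ≤
      10 ^ L / (2 / 5 * (Real.log D / 2 - Real.log 2)) +
        ∑ q ∈ (Icc 1 ⌊D⌋₊).filter (fun q => q.Coprime 10),
          (q.divisors.card : ℝ) ^ 2 * |cnt L q (hres l L q) - 10 ^ L / q| := by
  have hs2 : 2 ≤ Real.sqrt D := by
    rw [show (2 : ℝ) = Real.sqrt 4 by rw [show (4 : ℝ) = 2 ^ 2 by norm_num]; simp]
    exact Real.sqrt_le_sqrt hD.le
  set z := ⌈Real.sqrt D⌉₊ with hz
  have hzr : Real.sqrt D ≤ (z : ℝ) := Nat.le_ceil _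
  have hzr2 : (z : ℝ) < Real.sqrt D + 1 := Nat.ceil_lt_add_one (by linarith)
  have h1 : ((((univ : Finset (Fin L → Fin 10)).filter (fun m => (pvl l L m).Prime)).card : ℕ) : ℝ) ≤
      sift univ (pvl l L) 1 z := by
    unfold sift
    have : ((univ : Finset (Fin L → Fin 10)).filter (fun m => (pvl l L m).Prime)) ⊆
        (univ : Finset (Fin L → Fin 10)).filter
          (fun m => 1 ∣ pvl l L m ∧ (pvl l L m).Coprime (PZ z)) := by
      intro m hm
      rw [mem_filter] at hm ⊢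
      refine ⟨hm.1, one_dvd _, ?_⟩
      rw [Nat.Prime.coprime_iff_not_dvd hm.2]
      intro hdvd
      have h2 := PalS6.lt_of_dvd_PZ (dvd_refl (PZ z)) hm.2 hdvd
      have h3 := pvl_ge l L hl m
      have h4 : (z : ℝ) < 10 ^ (2 * L) := by linarith
      have h5 : z < 10 ^ (2 * L) := by exact_mod_cast h4
      omega
    exact_mod_cast card_le_card this
  have h2 := Pool.Agent.H605R2.PalS1.selberg (univ : Finset (Fin L → Fin 10)) (pvl l L) (10 ^ L)
    (by positivity) z 1 (Nat.coprime_one_left _) one_pos (Real.sqrt D) (by linarith)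
  have h3 := Pool.Agent.H965R2.PalS3.G_log z (Real.sqrt D) (Real.sqrt D / 2) (by linarith)
    (by linarith) (by linarith)
  have h4 : Real.log (Real.sqrt D / 2) = Real.log D / 2 - Real.log 2 := by
    rw [Real.log_div (by linarith) (by norm_num), Real.log_sqrt (by linarith)]
  rw [h4] at h3
  have hlog2 : 0 < Real.log 2 := Real.log_pos (by norm_num)
  by_cases hpos : 0 < Real.log D / 2 - Real.log 2
  · have h5 : 10 ^ L / ((1 : ℕ) : ℝ) / GZ (Real.sqrt D) z ≤
        10 ^ L / (2 / 5 * (Real.log D / 2 - Real.log 2)) := by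
      rw [Nat.cast_one, div_one]
      exact div_le_div_of_nonneg_left (by positivity) (by positivity) h3
    have h6 : ∑ l' ∈ (PZ z).divisors.filter (fun l' : ℕ => (l' : ℝ) ≤ Real.sqrt D ^ 2),
        (l'.divisors.card : ℝ) ^ 2 * |rem (univ : Finset (Fin L → Fin 10)) (pvl l L) (10 ^ L) (1 * l')| ≤
        ∑ q ∈ (Icc 1 ⌊D⌋₊).filter (fun q => q.Coprime 10),
          (q.divisors.card : ℝ) ^ 2 * |cnt L q (hres l L q) - 10 ^ L / q| := by
      have h7 : ∀ l' ∈ (PZ z).divisors.filter (fun l' : ℕ => (l' : ℝ) ≤ Real.sqrt D ^ 2),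
          l' ∈ (Icc 1 ⌊D⌋₊).filter (fun q => q.Coprime 10) := by
        intro l' hl'
        rw [mem_filter, Nat.mem_divisors] at hl'
        have hl0 : l' ≠ 0 := fun h => hl'.1.2 (by rw [h] at hl'; exact zero_dvd_iff.mp hl'.1.1)
        rw [mem_filter, mem_Icc]
        refine ⟨⟨Nat.one_le_iff_ne_zero.mpr hl0, ?_⟩, ?_⟩
        · apply Nat.le_floor
          have := hl'.2
          rwa [Real.sq_sqrt (by linarith)] at this
        · exact Nat.Coprime.coprime_dvd_left hl'.1.1 (PalS6.PZ_coprime_ten z)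
      calc _ = ∑ l' ∈ (PZ z).divisors.filter (fun l' : ℕ => (l' : ℝ) ≤ Real.sqrt D ^ 2),
          (l'.divisors.card : ℝ) ^ 2 * |cnt L l' (hres l L l') - 10 ^ L / l'| := by
            apply sum_congr rfl
            intro l' hl'
            have := h7 l' hl'
            rw [mem_filter, mem_Icc] at this
            rw [one_mul, rem_eq l L l' hl this.1.1]
        _ ≤ _ := by
            apply sum_le_sum_of_subset_of_nonneg h7
            intro q _ _
            positivity
    linarith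
  · exfalso
    apply hpos
    have h5 : Real.log 4 < Real.log D := Real.log_lt_log (by norm_num) hD
    rw [PalS6.log4] at h5
    linarith

theorem primes_upper_of
    (BV : ∀ ε : ℝ, 0 < ε → ∀ A : ℕ, ∀ᶠ L : ℕ in atTop, ∀ h : ℕ → ℕ,
      ∑ q ∈ (Icc 1 ⌊(10 : ℝ) ^ ((1 / 2 - ε) * L)⌋₊).filter (fun q => q.Coprime 10),
        (q.divisors.card : ℝ) ^ 2 * |cnt L q (h q) - 10 ^ L / q| ≤ 10 ^ L / (L : ℝ) ^ A)
    (palin_eq : ∀ L : ℕ, 1 ≤ L →
      palin L = ((Icc 1 9) ×ˢ (univ : Finset (Fin L → Fin 10))).image (fun x => pvl x.1 L x.2))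
    (ε : ℝ) (hε : 0 < ε) : ∀ᶠ L : ℕ in atTop,
    (((palin L).filter Nat.Prime).card : ℝ) ≤ (8 + ε) * (5 * 10 ^ L / (L * Real.log 10)) := by
  -- choice of the level
  obtain ⟨e, he0, he1, he2⟩ : ∃ e : ℝ, 0 < e ∧ e ≤ 1 / 8 ∧ e ≤ ε / 64 :=
    ⟨min (1 / 8) (ε / 64), by positivity, min_le_left _ _, min_le_right _ _⟩
  have hl10 : 0 < Real.log 10 := Real.log_pos (by norm_num)
  -- the limit
  have hinv : Tendsto (fun L : ℕ => Real.log 2 / (L : ℝ)) atTop (𝓝 0) :=
    tendsto_const_nhds.div_atTop tendsto_natCast_atTop_atTop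
  have hinv4 : Tendsto (fun L : ℕ => 4 / (L : ℝ)) atTop (𝓝 0) :=
    tendsto_const_nhds.div_atTop tendsto_natCast_atTop_atTop
  have hlim : Tendsto (fun L : ℕ => 4 / (2 / 5 * ((1 / 2 - e) * Real.log 10 / 2 - Real.log 2 / (L : ℝ)))
      + 4 / (L : ℝ)) atTop (𝓝 (4 / (2 / 5 * ((1 / 2 - e) * Real.log 10 / 2 - 0)) + 0)) := by
    apply Tendsto.add _ hinv4
    apply Tendsto.div tendsto_const_nhds
    · exact (hinv.const_sub _).const_mul _
    · have : 0 < 1 / 2 - e := by linarith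
      rw [sub_zero]
      positivity
  have hlt : 4 / (2 / 5 * ((1 / 2 - e) * Real.log 10 / 2 - 0)) + 0 < (8 + ε) * 5 / Real.log 10 := by
    have h1 : 0 < 1 / 2 - e := by linarith
    rw [add_zero, sub_zero, div_lt_div_iff₀ (by positivity) hl10]
    have h2 : 4 < (8 + ε) * 5 * (2 / 5 * ((1 / 2 - e) / 2)) := by nlinarith
    calc 4 * Real.log 10 < (8 + ε) * 5 * (2 / 5 * ((1 / 2 - e) / 2)) * Real.log 10 :=
          mul_lt_mul_of_pos_right h2 hl10
      _ = _ := by ring
  have hev := hlim.eventually_lt_const hlt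
  -- largeness
  have hDt : Tendsto (fun L : ℕ => (10 : ℝ) ^ ((1 / 2 - e) * L)) atTop atTop := by
    have h1 : Tendsto (fun L : ℕ => (1 / 2 - e) * (L : ℝ)) atTop atTop :=
      tendsto_natCast_atTop_atTop.const_mul_atTop (by linarith)
    have h2 : Tendsto (fun x : ℝ => (10 : ℝ) ^ x) atTop atTop :=
      tendsto_rpow_atTop_of_base_gt_one 10 (by norm_num)
    exact h2.comp h1
  have hpos : ∀ᶠ L : ℕ in atTop, 1 < (1 / 2 - e) * Real.log 10 / 2 * (L : ℝ) := by
    have h1 : Tendsto (fun L : ℕ => (1 / 2 - e) * Real.log 10 / 2 * (L : ℝ)) atTop atTop := by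
      apply tendsto_natCast_atTop_atTop.const_mul_atTop
      have : 0 < 1 / 2 - e := by linarith
      positivity
    exact h1.eventually_gt_atTop 1
  filter_upwards [hev, hDt.eventually_gt_atTop 4, hpos, BV e he0 2, eventually_ge_atTop 1] with
    L hL1 hL2 hL3 hL4 hL5
  have hLp : (0 : ℝ) < L := by exact_mod_cast hL5
  set D : ℝ := (10 : ℝ) ^ ((1 / 2 - e) * L) with hD
  have hlogD : Real.log D = (1 / 2 - e) * L * Real.log 10 := by
    rw [hD, Real.log_rpow (by norm_num)]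
  have hl2 : Real.log 2 < 1 := by
    have := Real.log_two_lt_d9
    linarith
  -- sqrt D + 1 ≤ 10^(2L)
  have hDle : D ≤ 10 ^ L := by
    rw [hD, ← Real.rpow_natCast]
    apply Real.rpow_le_rpow_of_exponent_le (by norm_num)
    nlinarith
  have h10L : (10 : ℝ) ≤ 10 ^ L := by
    calc (10 : ℝ) = 10 ^ 1 := by norm_num
      _ ≤ 10 ^ L := pow_le_pow_right₀ (by norm_num) hL5
  have hDL : Real.sqrt D + 1 ≤ 10 ^ (2 * L) := by
    have h1 : Real.sqrt D ≤ D := by
      rw [Real.sqrt_le_left (by linarith)]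
      nlinarith
    have h2 : (10 : ℝ) ^ (2 * L) = 10 ^ L * 10 ^ L := by rw [two_mul, pow_add]
    rw [h2]
    nlinarith
  -- each family
  have hfam : ∀ l : ℕ, 1 ≤ l →
      ((((univ : Finset (Fin L → Fin 10)).filter (fun m => (pvl l L m).Prime)).card : ℕ) : ℝ) ≤
      10 ^ L / (2 / 5 * (Real.log D / 2 - Real.log 2)) + 10 ^ L / (L : ℝ) ^ 2 := by
    intro l hl
    have h1 := family l L hl D hL2 hDL
    have h2 := hL4 (hres l L)
    linarith
  -- the primes are in four families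
  have hsub : (palin L).filter Nat.Prime ⊆ ({1, 3, 7, 9} : Finset ℕ).biUnion
      (fun l => ((univ : Finset (Fin L → Fin 10)).filter (fun m => (pvl l L m).Prime)).image
        (fun m => pvl l L m)) := by
    intro n hn
    rw [mem_filter, palin_eq L hL5, mem_image] at hn
    obtain ⟨⟨⟨l, m⟩, hx, rfl⟩, hp⟩ := hn
    rw [mem_product, mem_Icc] at hx
    simp only at hx hp ⊢
    have hmod := pvl_mod l L hL5 m
    have hge := pvl_ge l L hx.1.1 m
    have hbig : 10 < pvl l L m := by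
      have : 10 ^ 1 ≤ 10 ^ (2 * L) := Nat.pow_le_pow_right (by norm_num) (by omega)
      omega
    have h2 : ¬ 2 ∣ pvl l L m := fun h => by
      have := (Nat.prime_dvd_prime_iff_eq Nat.prime_two hp).mp h
      omega
    have h5 : ¬ 5 ∣ pvl l L m := fun h => by
      have := (Nat.prime_dvd_prime_iff_eq Nat.prime_five hp).mp h
      omega
    rw [mem_biUnion]
    refine ⟨l, ?_, ?_⟩
    · simp only [mem_insert, mem_singleton]
      have hl1 := hx.1.1
      have hl2 := hx.1.2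
      omega
    · rw [mem_image]
      exact ⟨m, by rw [mem_filter]; exact ⟨mem_univ _, hp⟩, rfl⟩
  have hcard : (((palin L).filter Nat.Prime).card : ℝ) ≤
      4 * (10 ^ L / (2 / 5 * (Real.log D / 2 - Real.log 2)) + 10 ^ L / (L : ℝ) ^ 2) := by
    have h1 : ((palin L).filter Nat.Prime).card ≤ ∑ l ∈ ({1, 3, 7, 9} : Finset ℕ),
        ((univ : Finset (Fin L → Fin 10)).filter (fun m => (pvl l L m).Prime)).card := by
      refine le_trans (card_le_card hsub) (le_trans card_biUnion_le ?_)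
      exact sum_le_sum (fun l _ => card_image_le)
    calc (((palin L).filter Nat.Prime).card : ℝ) ≤ ((∑ l ∈ ({1, 3, 7, 9} : Finset ℕ),
        ((univ : Finset (Fin L → Fin 10)).filter (fun m => (pvl l L m).Prime)).card : ℕ) : ℝ) := by
          exact_mod_cast h1
      _ = ∑ l ∈ ({1, 3, 7, 9} : Finset ℕ),
        ((((univ : Finset (Fin L → Fin 10)).filter (fun m => (pvl l L m).Prime)).card : ℕ) : ℝ) := by
          push_cast; rfl
      _ ≤ ∑ l ∈ ({1, 3, 7, 9} : Finset ℕ),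
        (10 ^ L / (2 / 5 * (Real.log D / 2 - Real.log 2)) + 10 ^ L / (L : ℝ) ^ 2) := by
          apply sum_le_sum
          intro l hl
          apply hfam
          simp only [mem_insert, mem_singleton] at hl
          omega
      _ = _ := by
          rw [sum_const, nsmul_eq_mul]
          norm_num
  refine le_trans hcard ?_
  have hden : 0 < (1 / 2 - e) * Real.log 10 / 2 - Real.log 2 / (L : ℝ) := by
    have : Real.log 2 / (L : ℝ) < (1 / 2 - e) * Real.log 10 / 2 := by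
      rw [div_lt_iff₀ hLp]; linarith
    linarith
  have h1 : Real.log D / 2 - Real.log 2 =
      L * ((1 / 2 - e) * Real.log 10 / 2 - Real.log 2 / (L : ℝ)) := by
    rw [hlogD]; field_simp
  rw [h1]
  have h2 : 4 * (10 ^ L / (2 / 5 * (L * ((1 / 2 - e) * Real.log 10 / 2 - Real.log 2 / (L : ℝ)))) +
      10 ^ L / (L : ℝ) ^ 2) = 10 ^ L / L *
      (4 / (2 / 5 * ((1 / 2 - e) * Real.log 10 / 2 - Real.log 2 / (L : ℝ))) + 4 / (L : ℝ)) := by
    have hden' := hden.ne'
    generalize (1 / 2 - e) * Real.log 10 / 2 - Real.log 2 / (L : ℝ) = x at hden'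
    field_simp
  rw [h2]
  calc 10 ^ L / L * (4 / (2 / 5 * ((1 / 2 - e) * Real.log 10 / 2 - Real.log 2 / (L : ℝ))) + 4 / (L : ℝ)) ≤
      10 ^ L / L * ((8 + ε) * 5 / Real.log 10) :=
        mul_le_mul_of_nonneg_left hL1.le (by positivity)
    _ = (8 + ε) * (5 * 10 ^ L / (L * Real.log 10)) := by
        field_simp

end Pool.Agent.H329R2.PalT13
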