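import Mathlib
import Pool.Agent.H476R2.Pal.Defs
import Pool.Agent.H476R2.Pal.SDefs
import Pool.Agent.H329R2.PalT13

/-! # Q12: upper bound for palindromic primes with constant `20/3`, from `BV2` and `palin_eq` (hypotheses) -/

set_option autoImplicit false

namespace Pool.Agent.H329R2.PalQ12

open Finset Filter Topology Pool.Agent.Helper112 Pool.Agent.H476R2.Pal Pool.Agent.H329R2.PalT13

theorem primes_upper2_of
    (BV2 : ∀ A : ℕ, ∀ᶠ L : ℕ in atTop, ∀ h : ℕ → ℕ,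
      ∑ q ∈ (Icc 1 ⌊(10 : ℝ) ^ ((3 / 5 : ℝ) * L)⌋₊).filter (fun q => q.Coprime 10),
        (q.divisors.card : ℝ) ^ 2 * |cnt L q (h q) - 10 ^ L / q| ≤ 10 ^ L / (L : ℝ) ^ A)
    (palin_eq : ∀ L : ℕ, 1 ≤ L →
      palin L = ((Icc 1 9) ×ˢ (univ : Finset (Fin L → Fin 10))).image (fun x => pvl x.1 L x.2))
    (ε : ℝ) (hε : 0 < ε) : ∀ᶠ L : ℕ in atTop,
    (((palin L).filter Nat.Prime).card : ℝ) ≤ (20 / 3 + ε) * (5 * 10 ^ L / (L * Real.log 10)) := by
  have hl10 : 0 < Real.log 10 := Real.log_pos (by norm_num)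
  -- the limit
  have hinv : Tendsto (fun L : ℕ => Real.log 2 / (L : ℝ)) atTop (𝓝 0) :=
    tendsto_const_nhds.div_atTop tendsto_natCast_atTop_atTop
  have hinv4 : Tendsto (fun L : ℕ => 4 / (L : ℝ)) atTop (𝓝 0) :=
    tendsto_const_nhds.div_atTop tendsto_natCast_atTop_atTop
  have hlim : Tendsto (fun L : ℕ => 4 / (2 / 5 * ((3 / 5 : ℝ) * Real.log 10 / 2 - Real.log 2 / (L : ℝ)))
      + 4 / (L : ℝ)) atTop (𝓝 (4 / (2 / 5 * ((3 / 5 : ℝ) * Real.log 10 / 2 - 0)) + 0)) := by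
    apply Tendsto.add _ hinv4
    apply Tendsto.div tendsto_const_nhds
    · exact (hinv.const_sub _).const_mul _
    · rw [sub_zero]
      positivity
  have hlt : 4 / (2 / 5 * ((3 / 5 : ℝ) * Real.log 10 / 2 - 0)) + 0 < (20 / 3 + ε) * 5 / Real.log 10 := by
    rw [add_zero, sub_zero, div_lt_div_iff₀ (by positivity) hl10]
    have h2 : 4 < (20 / 3 + ε) * 5 * (2 / 5 * ((3 / 5 : ℝ) / 2)) := by nlinarith
    calc 4 * Real.log 10 < (20 / 3 + ε) * 5 * (2 / 5 * ((3 / 5 : ℝ) / 2)) * Real.log 10 :=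
          mul_lt_mul_of_pos_right h2 hl10
      _ = _ := by ring
  have hev := hlim.eventually_lt_const hlt
  -- largeness
  have hDt : Tendsto (fun L : ℕ => (10 : ℝ) ^ ((3 / 5 : ℝ) * L)) atTop atTop := by
    have h1 : Tendsto (fun L : ℕ => (3 / 5 : ℝ) * (L : ℝ)) atTop atTop :=
      tendsto_natCast_atTop_atTop.const_mul_atTop (by norm_num)
    have h2 : Tendsto (fun x : ℝ => (10 : ℝ) ^ x) atTop atTop :=
      tendsto_rpow_atTop_of_base_gt_one 10 (by norm_num)
    exact h2.comp h1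
  have hpos : ∀ᶠ L : ℕ in atTop, 1 < (3 / 5 : ℝ) * Real.log 10 / 2 * (L : ℝ) := by
    have h1 : Tendsto (fun L : ℕ => (3 / 5 : ℝ) * Real.log 10 / 2 * (L : ℝ)) atTop atTop := by
      apply tendsto_natCast_atTop_atTop.const_mul_atTop
      positivity
    exact h1.eventually_gt_atTop 1
  filter_upwards [hev, hDt.eventually_gt_atTop 4, hpos, BV2 2, eventually_ge_atTop 1] with
    L hL1 hL2 hL3 hL4 hL5
  have hLp : (0 : ℝ) < L := by exact_mod_cast hL5
  set D : ℝ := (10 : ℝ) ^ ((3 / 5 : ℝ) * L) with hD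
  have hlogD : Real.log D = (3 / 5 : ℝ) * L * Real.log 10 := by
    rw [hD, Real.log_rpow (by norm_num)]
  have hl2 : Real.log 2 < 1 := by
    have := Real.log_two_lt_d9
    linarith
  -- sqrt D + 1 ≤ 10^(2L)
  have hDle : D ≤ 10 ^ L := by
    rw [hD, ← Real.rpow_natCast]
    apply Real.rpow_le_rpow_of_exponent_le (by norm_num)
    nlinarith
  have h10L : (10 : ℝ) ≤ 10 ^ L := by
    calc (10 : ℝ) = 10 ^ 1 := by norm_num
      _ ≤ 10 ^ L := pow_le_pow_right₀ (by norm_num) hL5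
  have hDL : Real.sqrt D + 1 ≤ 10 ^ (2 * L) := by
    have h1 : Real.sqrt D ≤ D := by
      rw [Real.sqrt_le_left (by linarith)]
      nlinarith
    have h2 : (10 : ℝ) ^ (2 * L) = 10 ^ L * 10 ^ L := by rw [two_mul, pow_add]
    rw [h2]
    nlinarith
  -- each family
  have hfam : ∀ l : ℕ, 1 ≤ l →
      ((((univ : Finset (Fin L → Fin 10)).filter (fun m => (pvl l L m).Prime)).card : ℕ) : ℝ) ≤
      10 ^ L / (2 / 5 * (Real.log D / 2 - Real.log 2)) + 10 ^ L / (L : ℝ) ^ 2 := by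
    intro l hl
    have h1 := family l L hl D hL2 hDL
    have h2 := hL4 (hres l L)
    linarith
  -- the primes are in four families
  have hsub : (palin L).filter Nat.Prime ⊆ ({1, 3, 7, 9} : Finset ℕ).biUnion
      (fun l => ((univ : Finset (Fin L → Fin 10)).filter (fun m => (pvl l L m).Prime)).image
        (fun m => pvl l L m)) := by
    intro n hn
    rw [mem_filter, palin_eq L hL5, mem_image] at hn
    obtain ⟨⟨⟨l, m⟩, hx, rfl⟩, hp⟩ := hn
    rw [mem_product, mem_Icc] at hx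
    simp only at hx hp ⊢
    have hmod := pvl_mod l L hL5 m
    have hge := pvl_ge l L hx.1.1 m
    have hbig : 10 < pvl l L m := by
      have : 10 ^ 1 ≤ 10 ^ (2 * L) := Nat.pow_le_pow_right (by norm_num) (by omega)
      omega
    have h2 : ¬ 2 ∣ pvl l L m := fun h => by
      have := (Nat.prime_dvd_prime_iff_eq Nat.prime_two hp).mp h
      omega
    have h5 : ¬ 5 ∣ pvl l L m := fun h => by
      have := (Nat.prime_dvd_prime_iff_eq Nat.prime_five hp).mp h
      omega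
    rw [mem_biUnion]
    refine ⟨l, ?_, ?_⟩
    · simp only [mem_insert, mem_singleton]
      have hl1 := hx.1.1
      have hl2 := hx.1.2
      omega
    · rw [mem_image]
      exact ⟨m, by rw [mem_filter]; exact ⟨mem_univ _, hp⟩, rfl⟩
  have hcard : (((palin L).filter Nat.Prime).card : ℝ) ≤
      4 * (10 ^ L / (2 / 5 * (Real.log D / 2 - Real.log 2)) + 10 ^ L / (L : ℝ) ^ 2) := by
    have h1 : ((palin L).filter Nat.Prime).card ≤ ∑ l ∈ ({1, 3, 7, 9} : Finset ℕ),
        ((univ : Finset (Fin L → Fin 10)).filter (fun m => (pvl l L m).Prime)).card := by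
      refine le_trans (card_le_card hsub) (le_trans card_biUnion_le ?_)
      exact sum_le_sum (fun l _ => card_image_le)
    calc (((palin L).filter Nat.Prime).card : ℝ) ≤ ((∑ l ∈ ({1, 3, 7, 9} : Finset ℕ),
        ((univ : Finset (Fin L → Fin 10)).filter (fun m => (pvl l L m).Prime)).card : ℕ) : ℝ) := by
          exact_mod_cast h1
      _ = ∑ l ∈ ({1, 3, 7, 9} : Finset ℕ),
        ((((univ : Finset (Fin L → Fin 10)).filter (fun m => (pvl l L m).Prime)).card : ℕ) : ℝ) := by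
          push_cast; rfl
      _ ≤ ∑ l ∈ ({1, 3, 7, 9} : Finset ℕ),
        (10 ^ L / (2 / 5 * (Real.log D / 2 - Real.log 2)) + 10 ^ L / (L : ℝ) ^ 2) := by
          apply sum_le_sum
          intro l hl
          apply hfam
          simp only [mem_insert, mem_singleton] at hl
          omega
      _ = _ := by
          rw [sum_const, nsmul_eq_mul]
          norm_num
  refine le_trans hcard ?_
  have hden : 0 < (3 / 5 : ℝ) * Real.log 10 / 2 - Real.log 2 / (L : ℝ) := by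
    have : Real.log 2 / (L : ℝ) < (3 / 5 : ℝ) * Real.log 10 / 2 := by
      rw [div_lt_iff₀ hLp]; linarith
    linarith
  have h1 : Real.log D / 2 - Real.log 2 =
      L * ((3 / 5 : ℝ) * Real.log 10 / 2 - Real.log 2 / (L : ℝ)) := by
    rw [hlogD]; field_simp
  rw [h1]
  have h2 : 4 * (10 ^ L / (2 / 5 * (L * ((3 / 5 : ℝ) * Real.log 10 / 2 - Real.log 2 / (L : ℝ)))) +
      10 ^ L / (L : ℝ) ^ 2) = 10 ^ L / L *
      (4 / (2 / 5 * ((3 / 5 : ℝ) * Real.log 10 / 2 - Real.log 2 / (L : ℝ))) + 4 / (L : ℝ)) := by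
    have hden' := hden.ne'
    generalize (3 / 5 : ℝ) * Real.log 10 / 2 - Real.log 2 / (L : ℝ) = x at hden'
    field_simp
  rw [h2]
  calc 10 ^ L / L * (4 / (2 / 5 * ((3 / 5 : ℝ) * Real.log 10 / 2 - Real.log 2 / (L : ℝ))) + 4 / (L : ℝ)) ≤
      10 ^ L / L * ((20 / 3 + ε) * 5 / Real.log 10) :=
        mul_le_mul_of_nonneg_left hL1.le (by positivity)
    _ = (20 / 3 + ε) * (5 * 10 ^ L / (L * Real.log 10)) := by
        field_simp

/-- Q12 in the form of the stub -/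
theorem primes_upper2_of'
    (BV2 : ∀ A : ℕ, ∀ᶠ L : ℕ in atTop, ∀ h : ℕ → ℕ,
      ∑ q ∈ (Icc 1 ⌊(10 : ℝ) ^ ((3 / 5 : ℝ) * L)⌋₊).filter (fun q => q.Coprime 10),
        (q.divisors.card : ℝ) ^ 2 * |cnt L q (h q) - 10 ^ L / q| ≤ 10 ^ L / (L : ℝ) ^ A)
    (palin_eq : ∀ L : ℕ, 1 ≤ L →
      palin L = ((Icc 1 9) ×ˢ (univ : Finset (Fin L → Fin 10))).image (fun x => pvl x.1 L x.2))
    (ε : ℝ) (hε : 0 < ε) : ∀ᶠ L : ℕ in atTop,
    (((range (10 ^ (2 * L + 1))).filter (fun n => 10 ^ (2 * L) ≤ n ∧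
        (Nat.digits 10 n).reverse = Nat.digits 10 n ∧ n.Prime)).card : ℝ)
      ≤ (20 / 3 + ε) * (5 * 10 ^ L / (L * Real.log 10)) := by
  filter_upwards [primes_upper2_of BV2 palin_eq ε hε] with L hL
  refine le_trans (le_of_eq ?_) hL
  unfold palin
  rw [filter_filter]
  simp only [and_assoc]

end Pool.Agent.H329R2.PalQ12
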